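import Pool.Agent.Lib.MP_a0c355_lc.Wk.Defs

/-! # The space of polynomials of degree at most `d` in the matrix coefficients -/

set_option autoImplicit false

namespace Pool.Agent.MPa0c355.Wk

variable {G : Type} [Group G] {𝔽 : Type} [Field 𝔽] {D : ℕ}

open scoped Pointwise

/-- the constant 1 and the matrix coefficients -/
def coefSet (φ : G →* Matrix (Fin D) (Fin D) 𝔽) : Set (G → 𝔽) :=
  {1} ∪ Set.range fun p : Fin D × Fin D => fun x => φ x p.1 p.2

/-- polynomials of degree at most `d` in the matrix coefficients, a power of a submodule of the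
algebra of all functions -/
noncomputable def coefSp (φ : G →* Matrix (Fin D) (Fin D) 𝔽) (d : ℕ) : Submodule 𝔽 (G → 𝔽) :=
  (Submodule.span 𝔽 (coefSet φ)) ^ d

/-- `Submodule.span_pow`, `Finset.card_pow_le`, `finrank_span_finset_le_card` -/
theorem coefSp_finite (φ : G →* Matrix (Fin D) (Fin D) 𝔽) (d : ℕ) :
    Module.Finite 𝔽 (coefSp φ d) ∧ Module.finrank 𝔽 (coefSp φ d) ≤ (D ^ 2 + 1) ^ d := by
  classical
  let T : Finset (G → 𝔽) :=
    insert 1 (Finset.univ.image fun p : Fin D × Fin D => fun x => φ x p.1 p.2)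
  have hT : coefSet φ = (T : Set (G → 𝔽)) := by
    simp only [coefSet, T, Finset.coe_insert, Finset.coe_image, Finset.coe_univ, Set.image_univ,
      Set.singleton_union]
  have hcard : T.card ≤ D ^ 2 + 1 := by
    refine (Finset.card_insert_le _ _).trans ?_
    refine Nat.add_le_add_right (Finset.card_image_le.trans ?_) 1
    rw [Finset.card_univ, Fintype.card_prod, Fintype.card_fin, sq]
  have hsp : coefSp φ d = Submodule.span 𝔽 ((T ^ d : Finset (G → 𝔽)) : Set (G → 𝔽)) := by
    rw [coefSp, hT, Submodule.span_pow, Finset.coe_pow]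
  rw [hsp]
  refine ⟨Module.Finite.span_of_finite 𝔽 (Finset.finite_toSet _), ?_⟩
  exact (finrank_span_finset_le_card _).trans
    (Finset.card_pow_le.trans (Nat.pow_le_pow_left hcard d))

/-- an algebra map which maps the span of `coefSet φ` into itself preserves `coefSp φ d` -/
theorem Coef_pres (φ : G →* Matrix (Fin D) (Fin D) 𝔽) (d : ℕ) (f : (G → 𝔽) →ₐ[𝔽] (G → 𝔽))
    (hf : ∀ i j : Fin D, f (fun x => φ x i j) ∈ Submodule.span 𝔽 (coefSet φ)) (v : G → 𝔽)
    (hv : v ∈ coefSp φ d) : f v ∈ coefSp φ d := by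
  have h1 : (Submodule.span 𝔽 (coefSet φ)).map f.toLinearMap ≤
      Submodule.span 𝔽 (coefSet φ) := by
    rw [Submodule.map_span_le]
    rintro m (hm | ⟨p, rfl⟩)
    · rw [Set.mem_singleton_iff] at hm
      subst hm
      rw [AlgHom.toLinearMap_apply, map_one]
      exact Submodule.subset_span (Or.inl rfl)
    · exact hf p.1 p.2
  have h2 : (coefSp φ d).map f.toLinearMap ≤ coefSp φ d := by
    rw [coefSp, Submodule.map_pow]
    exact pow_le_pow_left' h1 d
  exact h2 (Submodule.mem_map_of_mem hv)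

/-- the coefficients are in the span -/
theorem Coef_mem (φ : G →* Matrix (Fin D) (Fin D) 𝔽) (i j : Fin D) :
    (fun x => φ x i j) ∈ Submodule.span 𝔽 (coefSet φ) :=
  Submodule.subset_span (Or.inr ⟨(i, j), rfl⟩)

/-- translation is an algebra automorphism of `G → 𝔽` which maps the span of `coefSet φ` into itself
(`φ (x * y) i j = ∑ k, φ x i k * φ y k j`); `Submodule.map_pow` -/
theorem coefSp_right (φ : G →* Matrix (Fin D) (Fin D) 𝔽) (d : ℕ) (y : G) (v : G → 𝔽)
    (hv : v ∈ coefSp φ d) : (fun x => v (x * y)) ∈ coefSp φ d := by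
  let f : (G → 𝔽) →ₐ[𝔽] (G → 𝔽) :=
    { toFun := fun v x => v (x * y)
      map_one' := rfl
      map_mul' := fun _ _ => rfl
      map_zero' := rfl
      map_add' := fun _ _ => rfl
      commutes' := fun _ => rfl }
  refine Coef_pres φ d f ?_ v hv
  intro i j
  have h1 : f (fun x => φ x i j) = ∑ k, φ y k j • (fun x => φ x i k) := by
    funext x
    change φ (x * y) i j = _
    rw [map_mul, Matrix.mul_apply, Finset.sum_apply]
    exact Finset.sum_congr rfl fun k _ => mul_comm _ _
  rw [h1]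
  exact Submodule.sum_mem _ fun k _ => Submodule.smul_mem _ _ (Coef_mem φ i k)

/-- see `coefSp_right` -/
theorem coefSp_left (φ : G →* Matrix (Fin D) (Fin D) 𝔽) (d : ℕ) (y : G) (v : G → 𝔽)
    (hv : v ∈ coefSp φ d) : (fun x => v (y * x)) ∈ coefSp φ d := by
  let f : (G → 𝔽) →ₐ[𝔽] (G → 𝔽) :=
    { toFun := fun v x => v (y * x)
      map_one' := rfl
      map_mul' := fun _ _ => rfl
      map_zero' := rfl
      map_add' := fun _ _ => rfl
      commutes' := fun _ => rfl }
  refine Coef_pres φ d f ?_ v hv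
  intro i j
  have h1 : f (fun x => φ x i j) = ∑ k, φ y i k • (fun x => φ x k j) := by
    funext x
    change φ (y * x) i j = _
    rw [map_mul, Matrix.mul_apply, Finset.sum_apply]
    rfl
  rw [h1]
  exact Submodule.sum_mem _ fun k _ => Submodule.smul_mem _ _ (Coef_mem φ k j)

/-- the constants -/
theorem Coef_const (φ : G →* Matrix (Fin D) (Fin D) 𝔽) (d : ℕ) (c : 𝔽) :
    (fun _ => c) ∈ coefSp φ d := by
  have h1 : (1 : G → 𝔽) ∈ coefSp φ d := by
    have h2 := Submodule.pow_mem_pow (Submodule.span 𝔽 (coefSet φ))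
      (Submodule.subset_span (Or.inl rfl) : (1 : G → 𝔽) ∈ Submodule.span 𝔽 (coefSet φ)) d
    rwa [one_pow] at h2
  have h3 : (fun _ => c : G → 𝔽) = c • (1 : G → 𝔽) := by
    funext x
    exact (mul_one c).symm
  rw [h3]
  exact Submodule.smul_mem _ _ h1

/-- the coefficients of the powers -/
theorem Coef_pow (φ : G →* Matrix (Fin D) (Fin D) 𝔽) (d : ℕ) :
    ∀ i j : Fin D, (fun x => (φ x ^ d) i j) ∈ coefSp φ d := by
  induction d with
  | zero =>
    intro i j
    have h1 : (fun x => (φ x ^ 0) i j) = fun _ => (1 : Matrix (Fin D) (Fin D) 𝔽) i j := by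
      funext x
      rw [pow_zero]
    rw [h1]
    exact Coef_const φ 0 _
  | succ d ih =>
    intro i j
    have h1 : (fun x => (φ x ^ (d + 1)) i j) =
        ∑ k, (fun x => (φ x ^ d) i k) * (fun x => φ x k j) := by
      funext x
      rw [pow_succ, Matrix.mul_apply, Finset.sum_apply]
      rfl
    rw [h1, coefSp, pow_succ]
    exact Submodule.sum_mem _ fun k _ => Submodule.mul_mem_mul (ih i k) (Coef_mem φ k j)

/-- `(φ x ^ d) i j` is in `coefSp φ d` (induction on `d`) and so are the constants (`1 ∈ coefSet φ`); take the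
function `(φ x ^ d) i j - δ i j` for suitable `i`, `j`. -/
theorem coef_space (φ : G →* Matrix (Fin D) (Fin D) 𝔽) (d : ℕ) (x₀ : G) (hx : φ (x₀ ^ d) ≠ 1) :
    ∃ v ∈ coefSp φ d, v ≠ 0 ∧ ∀ x : G, x ^ d = 1 → v x = 0 := by
  obtain ⟨i, j, hij⟩ : ∃ i j : Fin D, φ (x₀ ^ d) i j ≠ (1 : Matrix (Fin D) (Fin D) 𝔽) i j := by
    by_contra hc
    push Not at hc
    exact hx (Matrix.ext hc)
  refine ⟨(fun x => (φ x ^ d) i j) - fun _ => (1 : Matrix (Fin D) (Fin D) 𝔽) i j,
    Submodule.sub_mem _ (Coef_pow φ d i j) (Coef_const φ d _), ?_, ?_⟩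
  · intro h0
    have h1 := congrFun h0 x₀
    apply hij
    rw [map_pow]
    exact sub_eq_zero.1 h1
  · intro x hxd
    change (φ x ^ d) i j - (1 : Matrix (Fin D) (Fin D) 𝔽) i j = 0
    rw [← map_pow, hxd, map_one, sub_self]

end Pool.Agent.MPa0c355.Wk
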