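import Mathlib

/-! # Cubes in a group with respect to the lower central series -/

set_option autoImplicit false

namespace Pool.Agent.MPa0c355.Wk

open scoped commutatorElement

/-- cubes of dimension `L` -/
def Cb (Q : Type) : ℕ → Type
  | 0 => Q
  | L + 1 => Cb Q L × Cb Q L

/-- pointwise multiplication -/
noncomputable instance cbGroup (Q : Type) [Group Q] : (L : ℕ) → Group (Cb Q L)
  | 0 => (inferInstance : Group Q)
  | L + 1 => @Prod.instGroup (Cb Q L) (Cb Q L) (cbGroup Q L) (cbGroup Q L)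

variable {Q : Type} [Group Q]

/-- the filtration: `fil 0 = fil 1 = ⊤`, `fil (i + 1)` is the term number `i` of the lower central series -/
def fil (Q : Type) [Group Q] (i : ℕ) : Subgroup Q := (⊤ : Subgroup Q).lowerCentralSeries (i - 1)

/-- the cubes of level `i`: the first face is of level `i` and the quotient of the two faces of level
`i + 1` -/
def inC : (L : ℕ) → ℕ → Cb Q L → Prop
  | 0, i, g => (show Q from g) ∈ fil Q i
  | L + 1, i, c => inC L i c.1 ∧ inC L (i + 1) (c.1⁻¹ * c.2)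

/-- constant cubes -/
def dg : (L : ℕ) → Q → Cb Q L
  | 0, g => g
  | L + 1, g => (dg L g, dg L g)

theorem fil_three (A B C N : Subgroup Q) [N.Normal] (h1 : ⁅⁅B, C⁆, A⁆ ≤ N)
    (h2 : ⁅⁅C, A⁆, B⁆ ≤ N) : ⁅⁅A, B⁆, C⁆ ≤ N := by
  have key : ∀ X : Subgroup Q, X ≤ N ↔ X.map (QuotientGroup.mk' N) = ⊥ := by
    intro X
    rw [Subgroup.map_eq_bot_iff, QuotientGroup.ker_mk']
  rw [key, Subgroup.map_commutator, Subgroup.map_commutator]
  apply Subgroup.commutator_commutator_eq_bot_of_rotate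
  · rw [← Subgroup.map_commutator, ← Subgroup.map_commutator, ← key]; exact h1
  · rw [← Subgroup.map_commutator, ← Subgroup.map_commutator, ← key]; exact h2

theorem fil_lcs (i j : ℕ) :
    ⁅(⊤ : Subgroup Q).lowerCentralSeries i, (⊤ : Subgroup Q).lowerCentralSeries j⁆ ≤
      (⊤ : Subgroup Q).lowerCentralSeries (i + j + 1) := by
  induction j generalizing i with
  | zero => exact le_of_eq (Subgroup.lowerCentralSeries_succ _ _).symm
  | succ j ih =>
    rw [Subgroup.commutator_comm]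
    have h : ⁅⁅(⊤ : Subgroup Q).lowerCentralSeries j, (⊤ : Subgroup Q)⁆,
        (⊤ : Subgroup Q).lowerCentralSeries i⁆ ≤
        (⊤ : Subgroup Q).lowerCentralSeries (i + (j + 1) + 1) := by
      apply fil_three
      · rw [Subgroup.commutator_comm ⊤, ← Subgroup.lowerCentralSeries_succ]
        refine (ih (i + 1)).trans (le_of_eq ?_)
        congr 1; ring
      · rw [show i + (j + 1) + 1 = (i + j + 1) + 1 by ring, Subgroup.lowerCentralSeries_succ]
        exact Subgroup.commutator_mono (ih i) le_rfl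
    exact h

theorem fil_anti {i j : ℕ} (hij : i ≤ j) : fil Q j ≤ fil Q i :=
  Subgroup.lowerCentralSeries_antitone _ (Nat.sub_le_sub_right hij 1)

instance fil_normal (i : ℕ) : (fil Q i).Normal := by
  unfold fil
  infer_instance

/-- `⁅γ_i, γ_j⁆ ≤ γ_(i+j)`: the three subgroup lemma modulo a normal subgroup
(`Subgroup.commutator_commutator_eq_bot_of_rotate` in the quotient), induction on `j`; there is a proof in
`Pool/Agent/Lib/MP_74ab55_al/EngBasic.lean`: `three_subgroups`, `lcs_comm_le` (copy it). -/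
theorem fil_comm (i j : ℕ) (u v : Q) (hu : u ∈ fil Q i) (hv : v ∈ fil Q j) :
    ⁅u, v⁆ ∈ fil Q (i + j) := by
  rcases Nat.eq_zero_or_pos i with hi | hi
  · subst hi
    rw [zero_add, commutatorElement_def]
    have h1 : u * v * u⁻¹ ∈ fil Q j := (fil_normal j).conj_mem v hv u
    exact (fil Q j).mul_mem h1 ((fil Q j).inv_mem hv)
  · rcases Nat.eq_zero_or_pos j with hj | hj
    · subst hj
      rw [add_zero, commutatorElement_def]
      have h1 : v * u⁻¹ * v⁻¹ ∈ fil Q i := (fil_normal i).conj_mem _ ((fil Q i).inv_mem hu) v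
      have h2 := (fil Q i).mul_mem hu h1
      rw [← mul_assoc, ← mul_assoc] at h2
      exact h2
    · have h1 := fil_lcs (Q := Q) (i - 1) (j - 1) (Subgroup.commutator_mem_commutator hu hv)
      have h2 : i + j - 1 = i - 1 + (j - 1) + 1 := by omega
      unfold fil
      rw [h2]
      exact h1

theorem inC_one (L i : ℕ) : inC L i (1 : Cb Q L) := by
  induction L generalizing i with
  | zero => exact (fil Q i).one_mem
  | succ L ih =>
    refine ⟨ih i, ?_⟩
    change inC L (i + 1) ((1 : Cb Q L)⁻¹ * (1 : Cb Q L))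
    rw [inv_one, one_mul]
    exact ih (i + 1)

theorem inC_mono (L : ℕ) {i j : ℕ} (hij : i ≤ j) (c : Cb Q L) (hc : inC L j c) : inC L i c := by
  induction L generalizing i j with
  | zero => exact fil_anti hij hc
  | succ L ih => exact ⟨ih hij c.1 hc.1, ih (Nat.add_le_add_right hij 1) _ hc.2⟩

/-- All closure properties together, by induction on `L`.  For `L + 1`: products: `(a a')⁻¹ b b' =
a'⁻¹ (a⁻¹ b) a' (a'⁻¹ b')`, and cubes of level `i + 1` are normalised by those of level `0` (third part with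
first level 0, and products).  Commutators: `u = (u₀, u₀ p)`, `v = (v₀, v₀ q)`, `p` of level `i + 1`, `q` of level
`j + 1`: with `⁅x y, z⁆ = x ⁅y, z⁆ x⁻¹ ⁅x, z⁆` and `⁅x, y z⁆ = ⁅x, y⁆ y ⁅x, z⁆ y⁻¹` one gets
`⁅u₀ p, v₀ q⁆ = A ⁅u₀, v₀⁆ B`, `A` and `B` of level `i + j + 1`. -/
theorem inC_closed (L : ℕ) : (∀ i, ∀ c c' : Cb Q L, inC L i c → inC L i c' → inC L i (c * c')) ∧
    (∀ i, ∀ c : Cb Q L, inC L i c → inC L i c⁻¹) ∧
    (∀ i j, ∀ c c' : Cb Q L, inC L i c → inC L j c' → inC L (i + j) ⁅c, c'⁆) := by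
  induction L with
  | zero =>
    exact ⟨fun i c c' hc hc' => (fil Q i).mul_mem hc hc', fun i c hc => (fil Q i).inv_mem hc,
      fun i j c c' hc hc' => fil_comm i j c c' hc hc'⟩
  | succ L ih =>
    obtain ⟨ihm, ihi, ihc⟩ := ih
    -- conjugation
    have cj : ∀ i, ∀ c d : Cb Q L, inC L i c → inC L 0 d → inC L i (d * c * d⁻¹) := by
      intro i c d hc hd
      have h1 : d * c * d⁻¹ = ⁅d, c⁆ * c := by
        rw [commutatorElement_def, inv_mul_cancel_right]
      rw [h1]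
      have h2 := ihc 0 i d c hd hc
      rw [zero_add] at h2
      exact ihm i _ _ h2 hc
    have cj' : ∀ i, ∀ c d : Cb Q L, inC L i c → inC L 0 d → inC L i (d⁻¹ * c * d) := by
      intro i c d hc hd
      have h1 := cj i c d⁻¹ hc (ihi 0 d hd)
      rw [inv_inv] at h1
      exact h1
    have z0 : ∀ i, ∀ c : Cb Q L, inC L i c → inC L 0 c := fun i c hc =>
      inC_mono L (Nat.zero_le i) c hc
    refine ⟨?_, ?_, ?_⟩
    · rintro i ⟨a, b⟩ ⟨a', b'⟩ ⟨ha, hb⟩ ⟨ha', hb'⟩
      refine ⟨ihm i a a' ha ha', ?_⟩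
      change inC L (i + 1) ((a * a')⁻¹ * (b * b'))
      change inC L (i + 1) (a⁻¹ * b) at hb
      change inC L (i + 1) (a'⁻¹ * b') at hb'
      have h1 : (a * a')⁻¹ * (b * b') = (a'⁻¹ * (a⁻¹ * b) * a') * (a'⁻¹ * b') := by group
      rw [h1]
      exact ihm _ _ _ (cj' _ _ _ hb (z0 _ _ ha')) hb'
    · rintro i ⟨a, b⟩ ⟨ha, hb⟩
      refine ⟨ihi i a ha, ?_⟩
      change inC L (i + 1) ((a⁻¹)⁻¹ * b⁻¹)
      change inC L (i + 1) (a⁻¹ * b) at hb
      have h1 : (a⁻¹)⁻¹ * b⁻¹ = (a * (a⁻¹ * b) * a⁻¹)⁻¹ := by group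
      rw [h1]
      exact ihi _ _ (cj _ _ _ hb (z0 _ _ ha))
    · rintro i j ⟨a, b⟩ ⟨a', b'⟩ ⟨ha, hb⟩ ⟨ha', hb'⟩
      refine ⟨ihc i j a a' ha ha', ?_⟩
      change inC L (i + j + 1) (⁅a, a'⁆⁻¹ * ⁅b, b'⁆)
      change inC L (i + 1) (a⁻¹ * b) at hb
      change inC L (j + 1) (a'⁻¹ * b') at hb'
      have hb2 : inC L j b' := by
        have h1 := ihm j a' (a'⁻¹ * b') ha' (inC_mono L (Nat.le_succ j) _ hb')
        rw [mul_inv_cancel_left] at h1
        exact h1
      have hA : inC L (i + j + 1) (a * ⁅a⁻¹ * b, b'⁆ * a⁻¹) := by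
        have h1 := ihc (i + 1) j _ _ hb hb2
        rw [show i + 1 + j = i + j + 1 by ring] at h1
        exact cj _ _ _ h1 (z0 _ _ ha)
      have hB : inC L (i + j + 1) (a' * ⁅a, a'⁻¹ * b'⁆ * a'⁻¹) := by
        have h1 := ihc i (j + 1) _ _ ha hb'
        exact cj _ _ _ h1 (z0 _ _ ha')
      have h1 : ⁅a, a'⁆⁻¹ * ⁅b, b'⁆ =
          (⁅a, a'⁆⁻¹ * (a * ⁅a⁻¹ * b, b'⁆ * a⁻¹) * ⁅a, a'⁆) * (a' * ⁅a, a'⁻¹ * b'⁆ * a'⁻¹) := by
        simp only [commutatorElement_def]
        group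
      rw [h1]
      exact ihm _ _ _ (cj' _ _ _ hA (z0 _ _ (ihc i j a a' ha ha'))) hB

theorem inC_dg (L i : ℕ) (g : Q) (hg : g ∈ fil Q i) : inC L i (dg L g) := by
  induction L with
  | zero => exact hg
  | succ L ih =>
    refine ⟨ih, ?_⟩
    change inC L (i + 1) ((dg L g)⁻¹ * dg L g)
    rw [inv_mul_cancel]
    exact inC_one L (i + 1)

/-- cubes of level `k + 1` are trivial if the class is at most `k` (for the second face use
`c.1 = 1`) -/
theorem inC_trivial (k : ℕ) (hk : (⊤ : Subgroup Q).lowerCentralSeries k = ⊥) (L : ℕ) (c : Cb Q L)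
    (hc : inC L (k + 1) c) : c = 1 := by
  induction L with
  | zero =>
    have h1 : (show Q from c) ∈ (⊤ : Subgroup Q).lowerCentralSeries (k + 1 - 1) := hc
    rw [Nat.add_sub_cancel, hk, Subgroup.mem_bot] at h1
    exact h1
  | succ L ih =>
    have h1 : c.1 = 1 := ih c.1 hc.1
    have h2 : c.1⁻¹ * c.2 = 1 := ih _ (inC_mono L (Nat.le_succ (k + 1)) _ hc.2)
    rw [h1, inv_one, one_mul] at h2
    exact Prod.ext h1 h2

end Pool.Agent.MPa0c355.Wk
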