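import Pool.Agent.Lib.MP_a0c355_lc.B12.PhaseBB

/-! # The random walk algorithm for `x ^ d = 1`

Start with `x = 1`; `T` times multiply `x` by a random subproduct of the generating tuple and test
`x ^ d = 1`. -/

set_option autoImplicit false

namespace Pool.Agent.MPa0c355.Wk

open scoped ENNReal

/-- a coin decides whether the scratch cell 7 is multiplied by the generator number (counter 1) -/
def mulStep : Cmd :=
  .seq (.coin 1) (.ite 1 (.gmul (sc 7) (sc 7) ⟨0, .const 0, .var 1⟩) .skip)

/-- one cycle -/
noncomputable def cycle (d : ℕ) : Cmd := .seq (.loop 1 Polynomial.X mulStep) (B12.testP d (sc 7))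

/-- the program -/
noncomputable def walkP (d : ℕ) (Tp : Polynomial ℕ) : Cmd :=
  .seq (.set 0 true) (.seq (.gone (sc 7)) (.loop 3 Tp (cycle d)))

variable {G : Type} [Group G] {N : ℕ}

/-- expectation over the random subproducts of a list, starting with `x` -/
noncomputable def avgL : List G → (G → ℝ) → G → ℝ
  | [], u => u
  | g :: l, u => fun x => (avgL l u x + avgL l u (x * g)) / 2

open Classical in
/-- `u` on `Z`, zero outside `Z` -/
noncomputable def cut (Z : Set G) (u : G → ℝ) : G → ℝ := fun x => if x ∈ Z then u x else 0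

/-- the probability that `t` cycles, started in `x`, are survived -/
noncomputable def surv (l : List G) (Z : Set G) : ℕ → G → ℝ
  | 0 => fun _ => 1
  | t + 1 => avgL l (cut Z (surv l Z t))

/-- the list of the first `N` elements of a sequence -/
def gens (N : ℕ) (r : ℕ → G) : List G := (List.range N).map r

theorem avgL_nonneg (l : List G) (u : G → ℝ) (hu : ∀ x, 0 ≤ u x) : ∀ x, 0 ≤ avgL l u x := by
  induction l with
  | nil => exact hu
  | cons g l ih =>
    intro x
    have h1 := ih x
    have h2 := ih (x * g)
    simp only [avgL]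
    positivity

theorem avgL_mono (l : List G) (u v : G → ℝ) (h : ∀ x, u x ≤ v x) : ∀ x, avgL l u x ≤ avgL l v x := by
  induction l with
  | nil => exact h
  | cons g l ih =>
    intro x
    have h1 := ih x
    have h2 := ih (x * g)
    simp only [avgL]
    linarith

theorem avgL_smul (l : List G) (u : G → ℝ) (c : ℝ) : ∀ x, avgL l (fun y => c * u y) x = c * avgL l u x := by
  induction l with
  | nil => intro x; rfl
  | cons g l ih =>
    intro x
    simp only [avgL]
    rw [ih x, ih (x * g)]
    ring

theorem avgL_const (l : List G) (c : ℝ) : ∀ x, avgL l (fun _ => c) x = c := by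
  induction l with
  | nil => intro x; rfl
  | cons g l ih =>
    intro x
    simp only [avgL]
    rw [ih x, ih (x * g)]
    ring

theorem avgL_append (l l' : List G) (u : G → ℝ) : avgL (l ++ l') u = avgL l (avgL l' u) := by
  induction l with
  | nil => rfl
  | cons g l ih =>
    funext x
    simp only [List.cons_append, avgL, ih]

theorem cut_nonneg (Z : Set G) (u : G → ℝ) (hu : ∀ x, 0 ≤ u x) : ∀ x, 0 ≤ cut Z u x := by
  intro x
  simp only [cut]
  split_ifs
  · exact hu x
  · exact le_rfl

theorem cut_le (Z : Set G) (u : G → ℝ) (hu : ∀ x, 0 ≤ u x) : ∀ x, cut Z u x ≤ u x := by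
  intro x
  simp only [cut]
  split_ifs
  · exact le_rfl
  · exact hu x

theorem surv_nonneg (l : List G) (Z : Set G) (t : ℕ) : ∀ x, 0 ≤ surv l Z t x := by
  induction t with
  | zero => intro x; exact zero_le_one
  | succ t ih => exact avgL_nonneg l _ (cut_nonneg Z _ ih)

theorem surv_le_one (l : List G) (Z : Set G) (t : ℕ) : ∀ x, surv l Z t x ≤ 1 := by
  induction t with
  | zero => intro x; exact le_rfl
  | succ t ih =>
    intro x
    have h := avgL_mono l (cut Z (surv l Z t)) (fun _ => 1)
      (fun y => (cut_le Z _ (surv_nonneg l Z t) y).trans (ih y)) x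
    rwa [avgL_const] at h

end Pool.Agent.MPa0c355.Wk
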