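import Pool.Agent.Lib.MP_a0c355_lc.Wk.CubeA
import Pool.Agent.Lib.MP_a0c355_lc.Wk.Defs

/-! # Density of the nontrivial vertices of a cube -/

set_option autoImplicit false

namespace Pool.Agent.MPa0c355.Wk

variable {Q : Type} [Group Q]

open Classical in
/-- the proportion of nontrivial vertices -/
noncomputable def pr : (L : ℕ) → Cb Q L → ℝ
  | 0, g => if (show Q from g) = 1 then 0 else 1
  | L + 1, c => (pr L c.1 + pr L c.2) / 2

theorem CubeB_eq {g : Cb Q 0} (h : g = 1) : pr 0 g = 0 := if_pos h

theorem CubeB_ne {g : Cb Q 0} (h : g ≠ 1) : pr 0 g = 1 := if_neg h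

theorem pr_nonneg (L : ℕ) (c : Cb Q L) : 0 ≤ pr L c := by
  induction L with
  | zero =>
    by_cases h : c = 1
    · rw [CubeB_eq h]
    · rw [CubeB_ne h]
      exact zero_le_one
  | succ L ih =>
    change (0 : ℝ) ≤ (pr L c.1 + pr L c.2) / 2
    have h1 := ih c.1
    have h2 := ih c.2
    positivity

theorem pr_quot (L : ℕ) (a b : Cb Q L) : pr L (a⁻¹ * b) ≤ pr L a + pr L b := by
  induction L with
  | zero =>
    by_cases h1 : a = 1
    · by_cases h2 : b = 1
      · rw [CubeB_eq h1, CubeB_eq h2, CubeB_eq (by rw [h1, h2, inv_one, mul_one]), add_zero]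
      · rw [CubeB_eq h1, CubeB_ne h2, CubeB_ne (by rw [h1, inv_one, one_mul]; exact h2), zero_add]
    · rw [CubeB_ne h1]
      have h3 := pr_nonneg 0 b
      have h4 : pr 0 (a⁻¹ * b) ≤ 1 := by
        by_cases h5 : a⁻¹ * b = 1
        · rw [CubeB_eq h5]
          exact zero_le_one
        · rw [CubeB_ne h5]
      linarith
  | succ L ih =>
    have h1 := ih a.1 b.1
    have h2 := ih a.2 b.2
    change (pr L (a.1⁻¹ * b.1) + pr L (a.2⁻¹ * b.2)) / 2 ≤
      (pr L a.1 + pr L a.2) / 2 + (pr L b.1 + pr L b.2) / 2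
    linarith

/-- Induction on `L`.  `c = (a, b)`, `δ = a⁻¹ b` of level `i + 1`.  If `δ ≠ 1` (then `i < k` by `inC_trivial`) use `pr_quot` and
the induction hypothesis for `δ`, otherwise `b = a ≠ 1`. -/
theorem pr_bound (k : ℕ) (hk : (⊤ : Subgroup Q).lowerCentralSeries k = ⊥) (L i : ℕ) (hi : i ≤ k)
    (c : Cb Q L) (hc : inC L i c) (h1 : c ≠ 1) : 1 / 2 ^ (k - i) ≤ pr L c := by
  induction L generalizing i with
  | zero =>
    rw [CubeB_ne h1, div_le_one (by positivity)]
    exact one_le_pow₀ one_le_two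
  | succ L ih =>
    obtain ⟨a, b⟩ := c
    have ha : inC L i a := hc.1
    have hδ : inC L (i + 1) (a⁻¹ * b) := hc.2
    change (1 : ℝ) / 2 ^ (k - i) ≤ (pr L a + pr L b) / 2
    by_cases hd : a⁻¹ * b = 1
    · have hab : b = a := (eq_of_inv_mul_eq_one hd).symm
      have ha1 : a ≠ 1 := by
        intro h2
        apply h1
        rw [hab, h2]
        rfl
      have h3 := ih i hi a ha ha1
      rw [hab]
      linarith
    · have hik : i < k := by
        rcases Nat.lt_or_ge i k with h2 | h2
        · exact h2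
        · have h3 : i = k := le_antisymm hi h2
          rw [h3] at hδ
          exact absurd (inC_trivial k hk L _ hδ) hd
      have h3 := ih (i + 1) hik (a⁻¹ * b) hδ hd
      have h4 := pr_quot L a b
      have h5 : k - i = (k - (i + 1)) + 1 := by omega
      have h6 : (1 : ℝ) / 2 ^ (k - i) = (1 / 2 ^ (k - (i + 1))) / 2 := by
        rw [h5, pow_succ]
        field_simp
      rw [h6]
      linarith

/-- all vertices with at most `r` ones are trivial -/
def low : (L : ℕ) → ℕ → Cb Q L → Prop
  | 0, _, g => (show Q from g) = 1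
  | L + 1, 0, c => low L 0 c.1
  | L + 1, r + 1, c => low L (r + 1) c.1 ∧ low L r c.2

/-- Induction on `L`: `c = (a, b)`: `a = 1`; then `a⁻¹ b = b` is of level `i + 1`. -/
theorem low_eq_one (k : ℕ) (hk : (⊤ : Subgroup Q).lowerCentralSeries k = ⊥) (L i : ℕ) (hi : i ≤ k)
    (c : Cb Q L) (hc : inC L i c) (h : low L (k - i) c) : c = 1 := by
  induction L generalizing i with
  | zero =>
    exact h
  | succ L ih =>
    obtain ⟨a, b⟩ := c
    have ha : inC L i a := hc.1
    have hδ : inC L (i + 1) (a⁻¹ * b) := hc.2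
    rcases Nat.eq_zero_or_pos (k - i) with h0 | h0
    · have hik : i = k := by omega
      rw [h0] at h
      have h2 : low L 0 a := h
      have h3 : a = 1 := ih i hi a ha (by rw [h0]; exact h2)
      rw [hik] at hδ
      have h4 := inC_trivial k hk L _ hδ
      rw [h3, inv_one, one_mul] at h4
      rw [h3, h4]
      rfl
    · obtain ⟨r, hr⟩ : ∃ r, k - i = r + 1 := ⟨k - i - 1, by omega⟩
      rw [hr] at h
      have h2 : low L (r + 1) a ∧ low L r b := h
      have h3 : a = 1 := ih i hi a ha (by rw [hr]; exact h2.1)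
      rw [h3, inv_one, one_mul] at hδ
      have h4 : b = 1 := ih (i + 1) (by omega) b hδ (by
        have h5 : k - (i + 1) = r := by omega
        rw [h5]
        exact h2.2)
      rw [h3, h4]
      rfl

/-- the cube of the subproducts of a list, starting with `x` -/
def subc : (l : List Q) → Q → Cb Q l.length
  | [], x => x
  | g :: l, x => (subc l x, subc l (x * g))

theorem CubeB_dg_mul (L : ℕ) (x y : Q) : dg L (x * y) = dg L x * dg L y := by
  induction L with
  | zero => rfl
  | succ L ih =>
    change (dg L (x * y), dg L (x * y)) = (dg L x * dg L y, dg L x * dg L y)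
    rw [ih]

theorem CubeB_subc (l : List Q) (x : Q) : subc l x = dg l.length x * subc l 1 := by
  induction l generalizing x with
  | nil =>
    change x = x * 1
    rw [mul_one]
  | cons g l ih =>
    change (subc l x, subc l (x * g)) =
      (dg l.length x * subc l 1, dg l.length x * subc l (1 * g))
    rw [ih x, ih (x * g), ih (1 * g), one_mul, CubeB_dg_mul, mul_assoc]

open scoped commutatorElement in
theorem CubeB_conj (L : ℕ) {i : ℕ} (u s : Cb Q L) (hu : inC L i u) (hs : inC L 0 s) :
    inC L i (s⁻¹ * u * s) := by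
  obtain ⟨h1, h2, h3⟩ := inC_closed (Q := Q) L
  have h4 : s⁻¹ * u * s = u * ⁅u⁻¹, s⁻¹⁆ := by
    rw [commutatorElement_def]
    group
  rw [h4]
  refine h1 i _ _ hu ?_
  exact h3 i 0 _ _ (h2 i _ hu) (h2 0 _ hs)

/-- `subc l x = dg x * subc l 1`; `inC_dg`, `inC_closed` -/
theorem inC_subc (l : List Q) (x : Q) : inC l.length 0 (subc l x) := by
  induction l generalizing x with
  | nil => exact Subgroup.mem_top x
  | cons g l ih =>
    refine ⟨ih x, ?_⟩
    change inC l.length (0 + 1) ((subc l x)⁻¹ * subc l (x * g))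
    have h1 : (subc l x)⁻¹ * subc l (x * g) = (subc l 1)⁻¹ * dg l.length g * subc l 1 := by
      rw [CubeB_subc l x, CubeB_subc l (x * g), CubeB_dg_mul]
      group
    rw [h1]
    exact CubeB_conj _ _ _ (inC_dg _ _ g (Subgroup.mem_top g)) (ih 1)

theorem inC_pow (L i : ℕ) (c : Cb Q L) (hc : inC L i c) (d : ℕ) : inC L i (c ^ d) := by
  induction d with
  | zero =>
    rw [pow_zero]
    exact inC_one L i
  | succ d ih =>
    rw [pow_succ]
    exact (inC_closed L).1 i _ _ ih hc

end Pool.Agent.MPa0c355.Wk
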