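import Pool.Agent.Lib.MP_a0c355_lc.Wk.CubeB

/-! # Nilpotent images -/

set_option autoImplicit false

namespace Pool.Agent.MPa0c355.Wk

variable {G Q : Type} [Group G] [Group Q]

/-- `k` copies of a list -/
def rep (k : ℕ) (l : List G) : List G := (List.replicate k l).flatten

omit [Group G] in
theorem CubeC_rep_succ (k : ℕ) (l : List G) : rep (k + 1) l = l ++ rep k l := by
  rw [rep, List.replicate_succ, List.flatten_cons, rep]

omit [Group G] [Group Q] in
theorem CubeC_rep_map (φ : G → Q) (k : ℕ) (l : List G) : (rep k l).map φ = rep k (l.map φ) := by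
  induction k with
  | zero => rfl
  | succ k ih => rw [CubeC_rep_succ, CubeC_rep_succ, List.map_append, ih]

omit [Group G] in
theorem CubeC_cut_pos {Z : Set G} {u : G → ℝ} {x : G} (h : x ∈ Z) : cut Z u x = u x := by
  simp only [cut, if_pos h]

omit [Group G] in
theorem CubeC_cut_neg {Z : Set G} {u : G → ℝ} {x : G} (h : x ∉ Z) : cut Z u x = 0 := by
  simp only [cut, if_neg h]

/-- the faces of a power -/
theorem CubeC_pow (L : ℕ) (a b : Cb Q L) (d : ℕ) :
    ((show Cb Q (L + 1) from (a, b)) ^ d : Cb Q (L + 1)) = (a ^ d, b ^ d) := by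
  induction d with
  | zero => simp only [pow_zero]; rfl
  | succ d ih => rw [pow_succ, ih, pow_succ, pow_succ]; rfl

theorem CubeC_one (L : ℕ) (a b : Cb Q L) (h : (show Cb Q (L + 1) from (a, b)) = 1) :
    a = 1 ∧ b = 1 := ⟨congrArg Prod.fst h, congrArg Prod.snd h⟩

/-- the two faces of the cube of a list -/
theorem CubeC_cons (g : Q) (l : List Q) (x : Q) (d : ℕ) (h : (subc (g :: l) x) ^ d = 1) :
    (subc l x) ^ d = 1 ∧ (subc l (x * g)) ^ d = 1 := by
  have h1 := CubeC_pow l.length (subc l x) (subc l (x * g)) d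
  exact CubeC_one _ _ _ (h1.symm.trans h)

theorem CubeC_app (l l' : List Q) (x : Q) (d : ℕ) (h : (subc (l ++ l') x) ^ d = 1) :
    (subc l' x) ^ d = 1 := by
  induction l with
  | nil => exact h
  | cons g l ih => exact ih (CubeC_cons g (l ++ l') x d h).1

theorem CubeC_mem (l l' : List Q) (x : Q) (d : ℕ) (h : (subc (l ++ l') x) ^ d = 1) (g : Q)
    (hg : g ∈ l) : (subc l' (x * g)) ^ d = 1 := by
  induction l with
  | nil => exact absurd hg List.not_mem_nil
  | cons g' l ih =>
    rcases List.mem_cons.1 hg with rfl | hg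
    · exact CubeC_app l l' _ d (CubeC_cons g (l ++ l') x d h).2
    · exact ih (CubeC_cons g' (l ++ l') x d h).1 hg

theorem CubeC_nil (l : List Q) (x : Q) (d : ℕ) (h : (subc l x) ^ d = 1) : x ^ d = 1 := by
  induction l with
  | nil => exact h
  | cons g l ih => exact ih (CubeC_cons g l x d h).1

/-- short products -/
theorem CubeC_short (k : ℕ) (d : ℕ) (l : List Q) (x : Q) (h : (subc (rep k l) x) ^ d = 1)
    (m : List Q) (hm : ∀ g ∈ m, g ∈ l) (hk : m.length ≤ k) : (x * m.prod) ^ d = 1 := by
  induction k generalizing x m with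
  | zero =>
    rw [List.length_eq_zero_iff.1 (Nat.le_zero.1 hk), List.prod_nil, mul_one]
    exact CubeC_nil _ x d h
  | succ k ih =>
    rcases m with _ | ⟨g, m⟩
    · rw [List.prod_nil, mul_one]
      exact CubeC_nil _ x d h
    · rw [CubeC_rep_succ] at h
      rw [List.prod_cons, ← mul_assoc]
      refine ih (x * g) (CubeC_mem l _ x d h g (hm g List.mem_cons_self)) m
        (fun y hy => hm y (List.mem_cons_of_mem _ hy)) ?_
      rw [List.length_cons] at hk
      omega

/-- if the short products are trivial, the lower faces of the cube are trivial -/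
theorem CubeC_low (d : ℕ) (l : List Q) (m : List Q) (hm : ∀ g ∈ m, g ∈ l) (r : ℕ) (x : Q)
    (h : ∀ m' : List Q, (∀ g ∈ m', g ∈ l) → m'.length ≤ r → (x * m'.prod) ^ d = 1) :
    low m.length r ((subc m x) ^ d) := by
  induction m generalizing x r with
  | nil =>
    have h1 := h [] (fun g hg => absurd hg List.not_mem_nil) (Nat.zero_le _)
    rw [List.prod_nil, mul_one] at h1
    exact h1
  | cons g m ih =>
    have h1 : ((subc (g :: m) x) ^ d : Cb Q (m.length + 1)) =
        ((subc m x) ^ d, (subc m (x * g)) ^ d) := CubeC_pow m.length _ _ d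
    have hm' : ∀ y ∈ m, y ∈ l := fun y hy => hm y (List.mem_cons_of_mem _ hy)
    change low (m.length + 1) r ((subc (g :: m) x) ^ d : Cb Q (m.length + 1))
    rw [h1]
    rcases r with _ | r
    · exact ih hm' 0 x h
    · refine ⟨ih hm' (r + 1) x h, ih hm' r (x * g) fun m' h2 h3 => ?_⟩
      have h4 := h (g :: m') (fun y hy => by
        rcases List.mem_cons.1 hy with rfl | hy
        · exact hm _ List.mem_cons_self
        · exact h2 y hy) (by rw [List.length_cons]; omega)
      rwa [List.prod_cons, ← mul_assoc] at h4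

/-- the last vertex -/
theorem CubeC_last (m : List Q) (x : Q) (d : ℕ) (h : (subc m x) ^ d = 1) :
    (x * m.prod) ^ d = 1 := by
  induction m generalizing x with
  | nil => rw [List.prod_nil, mul_one]; exact h
  | cons g m ih =>
    rw [List.prod_cons, ← mul_assoc]
    exact ih (x * g) (CubeC_cons g m x d h).2

/-- Suppose `(subc (rep k l) x) ^ d = 1`.  Then `(x * m.prod) ^ d = 1` for all lists `m` of at most `k` elements of `l`
(every such `m` is a subproduct of `rep k l`; induction on `k`, generalising `x`: from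
`(subc (l ++ l') y) ^ d = 1` get `(subc l' (y * g)) ^ d = 1` for `g ∈ l` or `g = 1`).  So `low m.length k` holds for
`(subc m x) ^ d` for every list `m` of elements of `l`, and `low_eq_one`, `inC_subc`, `inC_pow` give
`(x * m.prod) ^ d = 1`. -/
theorem subc_rep (k : ℕ) (hk : (⊤ : Subgroup Q).lowerCentralSeries k = ⊥) (d : ℕ) (l : List Q)
    (x : Q) (h : (subc (rep k l) x) ^ d = 1) (m : List Q) (hm : ∀ g ∈ m, g ∈ l) :
    (x * m.prod) ^ d = 1 := by
  refine CubeC_last m x d (low_eq_one k hk m.length 0 (Nat.zero_le _) _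
    (inC_pow _ _ _ (inC_subc m x) d) ?_)
  exact CubeC_low d l m hm (k - 0) x fun m' h1 h2 => CubeC_short k d l x h m' h1 h2

/-- `avgL l (cut {y | φ y ^ d = 1} 1) x = 1 - pr ((subc (l.map φ) (φ x)) ^ d)`, by induction on `l`
(beware of `l.map φ` having another length; one may state it with `pr` of `subc` and a cast-free
auxiliary function defined by recursion on the list instead) -/
theorem avgL_pr (φ : G →* Q) (d : ℕ) (l : List G) (x : G) :
    avgL l (cut {y | φ y ^ d = 1} fun _ => 1) x =
      1 - pr (l.map φ).length ((subc (l.map φ) (φ x)) ^ d) := by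
  classical
  induction l generalizing x with
  | nil =>
    change cut {y | φ y ^ d = 1} (fun _ => 1) x = 1 - (if (φ x ^ d : Q) = 1 then 0 else 1)
    by_cases h : φ x ^ d = 1
    · rw [CubeC_cut_pos (show x ∈ {y | φ y ^ d = 1} from h), if_pos h, sub_zero]
    · rw [CubeC_cut_neg (show x ∉ {y | φ y ^ d = 1} from h), if_neg h, sub_self]
  | cons g l ih =>
    have h1 : ((subc (φ g :: l.map φ) (φ x)) ^ d : Cb Q ((l.map φ).length + 1)) =
        ((subc (l.map φ) (φ x)) ^ d, (subc (l.map φ) (φ x * φ g)) ^ d) :=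
      CubeC_pow (l.map φ).length _ _ d
    have h2 : pr ((l.map φ).length + 1)
        ((subc (φ g :: l.map φ) (φ x)) ^ d : Cb Q ((l.map φ).length + 1)) =
        (pr (l.map φ).length ((subc (l.map φ) (φ x)) ^ d) +
          pr (l.map φ).length ((subc (l.map φ) (φ x * φ g)) ^ d)) / 2 := by
      rw [h1]
      rfl
    change (avgL l _ x + avgL l _ (x * g)) / 2 = 1 - pr ((l.map φ).length + 1)
        ((subc (φ g :: l.map φ) (φ x)) ^ d : Cb Q ((l.map φ).length + 1))
    rw [h2, ih x, ih (x * g), map_mul]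
    ring

/-- `avgL_pr` for `rep k l`, `pr_bound` with `i = 0`; the cube is nontrivial by `subc_rep`, since `x⁻¹ * x₀` is a
product of elements of `l` (`G` is finite). -/
theorem nil_avg [Finite G] (φ : G →* Q) (k : ℕ) (hk : (⊤ : Subgroup Q).lowerCentralSeries k = ⊥)
    (d : ℕ) (l : List G) (hgen : Subgroup.closure {g | g ∈ l} = ⊤) (x₀ : G) (hx : φ x₀ ^ d ≠ 1)
    (x : G) : avgL (rep k l) (cut {y | φ y ^ d = 1} fun _ => 1) x ≤ 1 - 1 / 2 ^ k := by
  have h1 : (subc ((rep k l).map φ) (φ x)) ^ d ≠ 1 := by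
    intro h
    rw [CubeC_rep_map] at h
    have h2 : x⁻¹ * x₀ ∈ Submonoid.closure {g | g ∈ l} := by
      rw [← Subgroup.closure_toSubmonoid_of_finite, hgen]
      trivial
    obtain ⟨m, hm, hp⟩ := Submonoid.exists_list_of_mem_closure h2
    have h3 := subc_rep k hk d (l.map φ) (φ x) h (m.map φ) (fun g hg => by
      obtain ⟨y, hy, rfl⟩ := List.mem_map.1 hg
      exact List.mem_map.2 ⟨y, hm y hy, rfl⟩)
    rw [← map_list_prod, hp, ← map_mul, mul_inv_cancel_left] at h3
    exact hx h3
  have h2 := pr_bound k hk _ 0 (Nat.zero_le _) _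
    (inC_pow _ _ _ (inC_subc ((rep k l).map φ) (φ x)) d) h1
  rw [Nat.sub_zero] at h2
  rw [avgL_pr]
  linarith

theorem CubeC_surv (l : List G) (Z : Set G) (t k : ℕ) (x : G) :
    surv l Z (t + (k + 1)) x ≤ avgL (rep (k + 1) l) (cut Z (surv l Z t)) x := by
  induction k generalizing x with
  | zero =>
    rw [CubeC_rep_succ, show rep 0 l = [] from rfl, List.append_nil]
    exact le_rfl
  | succ k ih =>
    rw [CubeC_rep_succ, avgL_append]
    change avgL l (cut Z (surv l Z (t + (k + 1)))) x ≤ _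
    exact avgL_mono l _ _ (fun y => (cut_le Z _ (surv_nonneg l Z _) y).trans (ih y)) x

/-- `surv (t + k) x ≤ avgL (rep k l) (cut Z (surv t)) x` (drop all tests of the first `k` cycles but the last one,
`avgL_mono`, `avgL_append`), so if `surv t ≤ M` everywhere then `surv (t + k) ≤ M (1 - 1 / 2 ^ k)` (`nil_avg`,
`avgL_smul`; `x ^ d = 1` implies `φ x ^ d = 1`). -/
theorem nil_surv [Finite G] (φ : G →* Q) (k : ℕ) (hk : (⊤ : Subgroup Q).lowerCentralSeries k = ⊥)
    (d : ℕ) (l : List G) (hgen : Subgroup.closure {g | g ∈ l} = ⊤) (x₀ : G) (hx : φ x₀ ^ d ≠ 1)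
    (t : ℕ) (x : G) : surv l {y | y ^ d = 1} (k * t) x ≤ (1 - 1 / 2 ^ k) ^ t := by
  rcases k with _ | k
  · exfalso
    apply hx
    have h1 : φ x₀ ^ d ∈ (⊤ : Subgroup Q).lowerCentralSeries 0 := Subgroup.mem_top _
    rw [hk] at h1
    exact Subgroup.mem_bot.1 h1
  · have hM : (0 : ℝ) ≤ 1 - 1 / 2 ^ (k + 1) := by
      have h1 : (1 : ℝ) / 2 ^ (k + 1) ≤ 1 := by
        rw [div_le_one (by positivity)]
        exact one_le_pow₀ (by norm_num)
      linarith
    induction t generalizing x with
    | zero =>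
      rw [mul_zero, pow_zero]
      exact surv_le_one _ _ _ _
    | succ t ih =>
      rw [Nat.mul_succ]
      refine (CubeC_surv l _ _ k x).trans ?_
      have h1 : ∀ y, cut {y | y ^ d = 1} (surv l {y | y ^ d = 1} ((k + 1) * t)) y ≤
          (1 - 1 / 2 ^ (k + 1)) ^ t * cut {y | φ y ^ d = 1} (fun _ => 1) y := by
        intro y
        by_cases hy : y ^ d = 1
        · have hy' : φ y ^ d = 1 := by rw [← map_pow, hy, map_one]
          rw [CubeC_cut_pos (show y ∈ {y | y ^ d = 1} from hy),
            CubeC_cut_pos (show y ∈ {y | φ y ^ d = 1} from hy'), mul_one]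
          exact ih y
        · rw [CubeC_cut_neg (show y ∉ {y | y ^ d = 1} from hy)]
          exact mul_nonneg (pow_nonneg hM t) (cut_nonneg _ _ (fun _ => zero_le_one) y)
      refine (avgL_mono _ _ _ h1 x).trans ?_
      rw [avgL_smul, pow_succ]
      exact mul_le_mul_of_nonneg_left (nil_avg φ (k + 1) hk d l hgen x₀ hx x) (pow_nonneg hM t)

end Pool.Agent.MPa0c355.Wk
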