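import Pool.Agent.Lib.MP_a0c355_lc.Wk.Defs

/-! # The energy estimate -/

set_option autoImplicit false

namespace Pool.Agent.MPa0c355.Wk

variable {G : Type} [Group G]

/-- the euclidean norm of a function -/
noncomputable def nrm [Fintype G] (f : G → ℝ) : ℝ := Real.sqrt (∑ x, f x ^ 2)

theorem Energy_eq [Fintype G] (f : G → ℝ) : nrm f = ‖(WithLp.toLp 2 f : EuclideanSpace ℝ G)‖ := by
  rw [EuclideanSpace.norm_eq, nrm]
  simp

theorem Energy_sq [Fintype G] (f : G → ℝ) : nrm f ^ 2 = ∑ x, f x ^ 2 :=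
  Real.sq_sqrt (Finset.sum_nonneg fun x _ => sq_nonneg _)

theorem Energy_nonneg [Fintype G] (f : G → ℝ) : 0 ≤ nrm f := Real.sqrt_nonneg _

/-- triangle inequality (`EuclideanSpace.norm_eq`) -/
theorem nrm_add [Fintype G] (f g : G → ℝ) : nrm (fun x => f x + g x) ≤ nrm f + nrm g := by
  rw [Energy_eq, Energy_eq, Energy_eq]
  exact norm_add_le (WithLp.toLp 2 f : EuclideanSpace ℝ G) (WithLp.toLp 2 g)

/-- right translation is an isometry -/
theorem nrm_translate [Fintype G] (f : G → ℝ) (y : G) : nrm (fun x => f (x * y)) = nrm f := by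
  unfold nrm
  congr 1
  exact Equiv.sum_comp (Equiv.mulRight y) (fun x => f x ^ 2)

theorem Energy_scale [Fintype G] (f : G → ℝ) (c : ℝ) (hc : 0 ≤ c) :
    nrm (fun x => c * f x) = c * nrm f := by
  have h : nrm (fun x => c * f x) ^ 2 = (c * nrm f) ^ 2 := by
    rw [mul_pow, Energy_sq, Energy_sq, Finset.mul_sum]
    exact Finset.sum_congr rfl fun x _ => by ring
  exact (sq_eq_sq₀ (Energy_nonneg _) (mul_nonneg hc (Energy_nonneg _))).1 h

theorem Energy_tri [Fintype G] (f g h : G → ℝ) :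
    nrm (fun x => f x - h x) ≤ nrm (fun x => f x - g x) + nrm (fun x => g x - h x) := by
  have := nrm_add (fun x => f x - g x) (fun x => g x - h x)
  simpa using this

theorem Energy_symm [Fintype G] (f g : G → ℝ) :
    nrm (fun x => f x - g x) = nrm (fun x => g x - f x) := by
  unfold nrm
  congr 1
  exact Finset.sum_congr rfl fun x _ => by ring

/-- Parallelogram law: `‖(f + R f) / 2‖² = ‖f‖² - ‖f - R f‖² / 4`, where `R f x = f (x * g)`. -/
theorem nrm_half [Fintype G] (f : G → ℝ) (g : G) :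
    nrm (fun x => (f x + f (x * g)) / 2) ^ 2 =
      nrm f ^ 2 - nrm (fun x => f x - f (x * g)) ^ 2 / 4 := by
  have h1 : ∑ x, f (x * g) ^ 2 = ∑ x, f x ^ 2 :=
    Equiv.sum_comp (Equiv.mulRight g) (fun x => f x ^ 2)
  rw [Energy_sq, Energy_sq, Energy_sq]
  have h2 : ∑ x, ((f x + f (x * g)) / 2) ^ 2 =
      (∑ x, f x ^ 2 + ∑ x, f (x * g) ^ 2) / 2 - (∑ x, (f x - f (x * g)) ^ 2) / 4 := by
    rw [← Finset.sum_add_distrib, Finset.sum_div, Finset.sum_div, ← Finset.sum_sub_distrib]
    exact Finset.sum_congr rfl fun x _ => by ring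
  rw [h2, h1]
  ring

/-- Induction on the list. -/
theorem energy [Fintype G] (l : List G) (f : G → ℝ) : ∃ a b : ℝ, 0 ≤ a ∧ a ^ 2 ≤ l.length * b ∧
    b = 4 * (nrm f ^ 2 - nrm (avgL l f) ^ 2) ∧ nrm (fun x => f x - avgL l f x) ≤ a / 2 ∧
    ∀ g ∈ l, nrm (fun x => f x - f (x * g)) ≤ a := by
  induction l with
  | nil =>
    refine ⟨0, 0, le_rfl, by simp, by simp [avgL], ?_, by simp⟩
    simp [avgL, nrm]
  | cons g l ih =>
    obtain ⟨a, b, ha, hab, hb, hf, hl⟩ := ih
    set h := avgL l f with hh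
    set δ := nrm (fun x => h x - h (x * g)) with hδ
    have hδ0 : 0 ≤ δ := Energy_nonneg _
    have hb0 : 0 ≤ b ∨ l.length = 0 := by
      rcases Nat.eq_zero_or_pos l.length with h0 | h0
      · exact Or.inr h0
      · left
        have : (0 : ℝ) < l.length := by exact_mod_cast h0
        by_contra hcon
        push Not at hcon
        nlinarith [sq_nonneg a]
    have hhalf : nrm (fun x => h x - (h x + h (x * g)) / 2) = δ / 2 := by
      have e : (fun x => h x - (h x + h (x * g)) / 2) = fun x => (1 / 2) * (h x - h (x * g)) := by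
        funext x; ring
      rw [e, Energy_scale _ _ (by norm_num)]
      ring
    have hsh : nrm (fun x => f (x * g) - h (x * g)) = nrm (fun x => f x - h x) :=
      nrm_translate (fun x => f x - h x) g
    refine ⟨a + δ, b + δ ^ 2, by positivity, ?_, ?_, ?_, ?_⟩
    · rw [List.length_cons]
      push_cast
      set k : ℝ := (l.length : ℝ) with hk
      have hk0 : 0 ≤ k := Nat.cast_nonneg _
      rcases hb0 with hb0 | hb0
      · rcases eq_or_lt_of_le hk0 with hk1 | hk1
        · have ha0 : a ^ 2 ≤ 0 := by rw [← hk1] at hab; linarith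
          have ha1 : a = 0 := by nlinarith
          rw [ha1, ← hk1]
          nlinarith
        · have key : k * (a + δ) ^ 2 ≤ k * ((k + 1) * (b + δ ^ 2)) := by
            nlinarith [sq_nonneg (a - k * δ), mul_nonneg hk0 hk0, mul_nonneg hk0 (sub_nonneg.2 hab)]
          exact le_of_mul_le_mul_left key hk1
      · have hk1 : k = 0 := by rw [hk, hb0]; simp
        have ha0 : a ^ 2 ≤ 0 := by rw [hk1] at hab; linarith
        have ha1 : a = 0 := by nlinarith
        have hl0 : l = [] := List.length_eq_zero_iff.1 hb0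
        have hb1 : b = 0 := by
          rw [hb, hh, hl0]
          simp [avgL]
        rw [ha1, hk1, hb1]
        nlinarith
    · rw [hb]
      simp only [avgL]
      rw [← hh, nrm_half]
      ring
    · have h1 := Energy_tri f h (avgL (g :: l) f)
      simp only [avgL] at h1 ⊢
      rw [← hh] at h1 ⊢
      rw [hhalf] at h1
      linarith
    · intro g' hg'
      rcases List.mem_cons.1 hg' with rfl | hg'
      · have h1 := Energy_tri f h (fun x => f (x * g'))
        have h2 := Energy_tri h (fun x => h (x * g')) (fun x => f (x * g'))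
        have h3 := Energy_symm (fun x => h (x * g')) (fun x => f (x * g'))
        linarith
      · have := hl g' hg'
        linarith

theorem Energy_contr [Fintype G] (l : List G) (f : G → ℝ) : nrm (avgL l f) ^ 2 ≤ nrm f ^ 2 := by
  induction l with
  | nil => exact le_rfl
  | cons g l ih =>
    simp only [avgL]
    rw [nrm_half]
    have := sq_nonneg (nrm (fun x => avgL l f x - avgL l f (x * g)))
    linarith

theorem Energy_word [Fintype G] (l : List G) (h : G → ℝ) (a : ℝ)
    (hl : ∀ g ∈ l, nrm (fun x => h x - h (x * g)) ≤ a) (m : List G) (hm : ∀ g ∈ m, g ∈ l) :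
    nrm (fun x => h x - h (x * m.prod)) ≤ m.length * a := by
  induction m with
  | nil => simp [nrm]
  | cons g m ih =>
    have h1 := hl g (hm g (by simp))
    have h2 := ih (fun g' hg' => hm g' (by simp [hg']))
    have h3 := Energy_tri h (fun x => h (x * g)) (fun x => h (x * (g :: m).prod))
    have h4 : nrm (fun x => h (x * g) - h (x * (g :: m).prod)) =
        nrm (fun x => h x - h (x * m.prod)) := by
      have e : (fun x => h (x * g) - h (x * (g :: m).prod)) =
          fun x => (fun y => h y - h (y * m.prod)) (x * g) := by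
        funext x
        simp only [List.prod_cons, mul_assoc]
      rw [e]
      exact nrm_translate (fun y => h y - h (y * m.prod)) g
    rw [List.length_cons]
    push_cast
    linarith

/-- Let `L = ‖h‖² - ‖avgL l h‖²`.  By `energy` `‖h - R_g h‖ ≤ a` for `g ∈ l` with `a ^ 2 ≤ 4 k L`, `k` the length of
`l`; so `‖h - R_(w j) h‖ ≤ K a` (translation is an isometry) and, as `h x ^ 2 ≤ ∑ j, (h x - h (x * w j)) ^ 2`,
`‖h‖² ≤ K (K a) ^ 2 ≤ 4 K ^ 3 k L`. -/
theorem contract [Fintype G] (l : List G) (K : ℕ) (w : Fin K → G)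
    (hw : ∀ j, ∃ m : List G, m.length ≤ K ∧ (∀ g ∈ m, g ∈ l) ∧ w j = m.prod) (h : G → ℝ)
    (hh : ∀ x, h x ≠ 0 → ∃ j, h (x * w j) = 0) :
    nrm (avgL l h) ^ 2 ≤ (1 - 1 / (4 * (l.length + 1) * K ^ 3)) * nrm h ^ 2 := by
  obtain ⟨a, b, ha, hab, hb, -, hl⟩ := energy l h
  have hc := Energy_contr l h
  rcases Nat.eq_zero_or_pos K with hK | hK
  · have h0 : h = fun _ => 0 := by
      funext x
      by_contra hx
      obtain ⟨j, -⟩ := hh x hx
      exact absurd j.2 (by omega)
    have h1 : nrm h ^ 2 = 0 := by rw [Energy_sq, h0]; simp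
    rw [h1] at hc ⊢
    rw [mul_zero]
    exact hc
  have hKr : (1 : ℝ) ≤ K := by exact_mod_cast hK
  have hwj : ∀ j, nrm (fun x => h x - h (x * w j)) ^ 2 ≤ (K * a) ^ 2 := by
    intro j
    obtain ⟨m, hm1, hm2, hm3⟩ := hw j
    have h1 := Energy_word l h a hl m hm2
    rw [← hm3] at h1
    have h2 : (m.length : ℝ) ≤ K := by exact_mod_cast hm1
    have h3 : nrm (fun x => h x - h (x * w j)) ≤ K * a := h1.trans (by gcongr)
    exact pow_le_pow_left₀ (Energy_nonneg _) h3 2
  have hS : nrm h ^ 2 ≤ K * (K * a) ^ 2 := by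
    have h1 : nrm h ^ 2 ≤ ∑ j, nrm (fun x => h x - h (x * w j)) ^ 2 := by
      have e : ∀ j, nrm (fun x => h x - h (x * w j)) ^ 2 = ∑ x, (h x - h (x * w j)) ^ 2 :=
        fun j => Energy_sq _
      simp only [e]
      rw [Energy_sq, Finset.sum_comm]
      refine Finset.sum_le_sum fun x _ => ?_
      by_cases hx : h x = 0
      · rw [hx]
        have : 0 ≤ ∑ j, (0 - h (x * w j)) ^ 2 := Finset.sum_nonneg fun j _ => sq_nonneg _
        simpa using this
      · obtain ⟨j, hj⟩ := hh x hx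
        have h2 := Finset.single_le_sum (f := fun j => (h x - h (x * w j)) ^ 2)
          (fun j _ => sq_nonneg _) (Finset.mem_univ j)
        simp only [hj, sub_zero] at h2
        exact h2
    refine h1.trans ?_
    refine (Finset.sum_le_sum fun j _ => hwj j).trans ?_
    simp
  set S := nrm h ^ 2 with hSdef
  set A := nrm (avgL l h) ^ 2 with hA
  set k : ℝ := (l.length : ℝ) with hk
  have hk0 : 0 ≤ k := Nat.cast_nonneg _
  have hM : 0 < 4 * (k + 1) * (K : ℝ) ^ 3 := by positivity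
  have h5 : S ≤ (4 * (k + 1) * (K : ℝ) ^ 3) * (S - A) := by
    have h6 : (K : ℝ) * (K * a) ^ 2 = K ^ 3 * a ^ 2 := by ring
    have h7 : (K : ℝ) ^ 3 * a ^ 2 ≤ K ^ 3 * (k * b) := by gcongr
    have h8 : (K : ℝ) ^ 3 * (k * b) = 4 * k * K ^ 3 * (S - A) := by rw [hb]; ring
    have h9 : 4 * k * (K : ℝ) ^ 3 * (S - A) ≤ 4 * (k + 1) * K ^ 3 * (S - A) := by
      have : 0 ≤ S - A := by linarith
      gcongr
      linarith
    linarith
  have h10 : S / (4 * (k + 1) * (K : ℝ) ^ 3) ≤ S - A := by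
    rw [div_le_iff₀ hM]
    linarith
  have h11 : (1 - 1 / (4 * (k + 1) * (K : ℝ) ^ 3)) * S = S - S / (4 * (k + 1) * (K : ℝ) ^ 3) := by
    ring
  rw [h11]
  linarith

/-- `‖surv t‖² ≤ (1 - η) ^ t |G|` by induction (`contract` for `h = cut Z (surv t)`, `‖cut Z u‖ ≤ ‖u‖`), and the
value at 1 is at most the norm. -/
theorem surv_bound [Fintype G] (l : List G) (Z : Set G) (K : ℕ) (w : Fin K → G)
    (hw : ∀ j, ∃ m : List G, m.length ≤ K ∧ (∀ g ∈ m, g ∈ l) ∧ w j = m.prod)
    (hZ : ∀ x, ∃ j, x * w j ∉ Z) (T : ℕ) :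
    surv l Z T 1 ^ 2 ≤ (1 - 1 / (4 * (l.length + 1) * (K : ℝ) ^ 3)) ^ T * Nat.card G := by
  have hη : 0 ≤ 1 - 1 / (4 * ((l.length : ℝ) + 1) * (K : ℝ) ^ 3) := by
    have hK : 0 < K := by
      obtain ⟨j, -⟩ := hZ 1
      exact lt_of_le_of_lt (Nat.zero_le _) j.2
    have hKr : (1 : ℝ) ≤ K := by exact_mod_cast hK
    have hk0 : (0 : ℝ) ≤ l.length := Nat.cast_nonneg _
    have h1 : (1 : ℝ) ≤ 4 * ((l.length : ℝ) + 1) * (K : ℝ) ^ 3 := by
      have : (1 : ℝ) ≤ (K : ℝ) ^ 3 := one_le_pow₀ hKr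
      nlinarith
    rw [sub_nonneg, div_le_one (by linarith)]
    exact h1
  have key : ∀ T, nrm (surv l Z T) ^ 2 ≤
      (1 - 1 / (4 * ((l.length : ℝ) + 1) * (K : ℝ) ^ 3)) ^ T * Nat.card G := by
    intro T
    induction T with
    | zero =>
      rw [Energy_sq]
      simp [surv, Nat.card_eq_fintype_card]
    | succ T ih =>
      have h1 := contract l K w hw (cut Z (surv l Z T)) (by
        intro x _
        obtain ⟨j, hj⟩ := hZ x
        exact ⟨j, by simp only [cut]; rw [if_neg hj]⟩)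
      have h2 : nrm (cut Z (surv l Z T)) ^ 2 ≤ nrm (surv l Z T) ^ 2 := by
        rw [Energy_sq, Energy_sq]
        refine Finset.sum_le_sum fun x _ => ?_
        exact pow_le_pow_left₀ (cut_nonneg Z _ (surv_nonneg l Z T) x)
          (cut_le Z _ (surv_nonneg l Z T) x) 2
      have h3 : surv l Z (T + 1) = avgL l (cut Z (surv l Z T)) := rfl
      rw [h3, pow_succ]
      calc nrm (avgL l (cut Z (surv l Z T))) ^ 2 ≤ _ := h1
        _ ≤ (1 - 1 / (4 * ((l.length : ℝ) + 1) * (K : ℝ) ^ 3)) * nrm (surv l Z T) ^ 2 := by gcongr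
        _ ≤ (1 - 1 / (4 * ((l.length : ℝ) + 1) * (K : ℝ) ^ 3)) *
            ((1 - 1 / (4 * ((l.length : ℝ) + 1) * (K : ℝ) ^ 3)) ^ T * Nat.card G) := by gcongr
        _ = _ := by ring
  refine le_trans ?_ (key T)
  rw [Energy_sq]
  exact Finset.single_le_sum (f := fun x => surv l Z T x ^ 2) (fun x _ => sq_nonneg _)
    (Finset.mem_univ 1)

end Pool.Agent.MPa0c355.Wk
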