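import Pool.Agent.Lib.MP_a0c355_lc.Wk.Defs

/-! # Numerical estimates -/

set_option autoImplicit false

namespace Pool.Agent.MPa0c355.Wk

/-- number of words -/
def numK (d c N : ℕ) : ℕ := ((N ^ c + c) ^ 2 + 1) ^ d + 1

/-- number of cycles -/
def numT (d c N : ℕ) : ℕ :=
  4 * (N + 1) * (numK d c N) ^ 3 * (N + 3) + 2 * (N ^ c + c) ^ 2

/-- number of cycles, as a polynomial -/
noncomputable def polT (d c : ℕ) : Polynomial ℕ :=
  4 * (Polynomial.X + 1) * (((Polynomial.X ^ c + Polynomial.C c) ^ 2 + 1) ^ d + 1) ^ 3 *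
    (Polynomial.X + 3) + 2 * (Polynomial.X ^ c + Polynomial.C c) ^ 2

theorem polT_eval (d c N : ℕ) : (polT d c).eval N = numT d c N := by
  simp only [polT, numT, numK, Polynomial.eval_add, Polynomial.eval_mul, Polynomial.eval_pow,
    Polynomial.eval_X, Polynomial.eval_C, Polynomial.eval_one, Polynomial.eval_ofNat]

/-- `(1 - η) ^ T ≤ exp (-(η T))` -/
theorem numW_pow {η : ℝ} (h1 : η ≤ 1) (T : ℕ) : (1 - η) ^ T ≤ Real.exp (-(η * T)) := by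
  have h2 : 1 - η ≤ Real.exp (-η) := by
    have := Real.add_one_le_exp (-η)
    linarith
  have h3 : (1 - η) ^ T ≤ Real.exp (-η) ^ T := pow_le_pow_left₀ (by linarith) h2 T
  rw [← Real.exp_nat_mul] at h3
  refine h3.trans (le_of_eq ?_)
  congr 1
  ring

theorem numW_exp : (2 : ℝ) ≤ Real.exp 1 ∧ 9 ≤ Real.exp 3 ∧ 3 ≤ Real.exp 2 := by
  have h := Real.exp_one_gt_d9
  have h0 : (2.7 : ℝ) ≤ Real.exp 1 := by
    norm_num at h ⊢
    linarith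
  have h2 : Real.exp 2 = Real.exp 1 ^ 2 := by
    rw [← Real.exp_nat_mul]
    norm_num
  have h3 : Real.exp 3 = Real.exp 1 ^ 3 := by
    rw [← Real.exp_nat_mul]
    norm_num
  have p2 : (2.7 : ℝ) ^ 2 ≤ Real.exp 1 ^ 2 := pow_le_pow_left₀ (by norm_num) h0 2
  have p3 : (2.7 : ℝ) ^ 3 ≤ Real.exp 1 ^ 3 := pow_le_pow_left₀ (by norm_num) h0 3
  refine ⟨by linarith, ?_, ?_⟩
  · rw [h3]
    norm_num at p3 ⊢
    linarith
  · rw [h2]
    norm_num at p2 ⊢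
    linarith

/-- `1 - η ≤ exp (-η)`, `M (N + 3) ≤ T`, `2 ^ N exp (-(N + 3)) ≤ exp (-3) ≤ 1 / 9`, where `η = 1 / M`. -/
theorem num_lin (d c N g : ℕ) (hg : g ≤ 2 ^ N) :
    (1 - 1 / (4 * ((N : ℝ) + 1) * (numK d c N : ℝ) ^ 3)) ^ (numT d c N) * (g : ℝ) ≤ 1 / 9 := by
  obtain ⟨e1, e3, -⟩ := numW_exp
  obtain ⟨M, hM⟩ : ∃ M : ℝ, M = 4 * ((N : ℝ) + 1) * (numK d c N : ℝ) ^ 3 := ⟨_, rfl⟩
  rw [← hM]
  have hK : (1 : ℝ) ≤ (numK d c N : ℝ) := by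
    have : 1 ≤ numK d c N := by
      unfold numK
      omega
    exact_mod_cast this
  have hM1 : 1 ≤ M := by
    have h1 : (1 : ℝ) ≤ (numK d c N : ℝ) ^ 3 := one_le_pow₀ hK
    have h2 : (0 : ℝ) ≤ (N : ℝ) := Nat.cast_nonneg N
    rw [hM]
    nlinarith
  have hM0 : 0 < M := by linarith
  have hT : M * ((N : ℝ) + 3) ≤ (numT d c N : ℝ) := by
    rw [hM]
    unfold numT
    push_cast
    have : (0 : ℝ) ≤ 2 * ((N : ℝ) ^ c + c) ^ 2 := by positivity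
    linarith
  have h1 := numW_pow (η := 1 / M) (by rw [div_le_one hM0]; exact hM1) (numT d c N)
  have h2 : Real.exp (-(1 / M * (numT d c N : ℝ))) ≤ Real.exp (-((N : ℝ) + 3)) := by
    rw [Real.exp_le_exp, neg_le_neg_iff, one_div, inv_mul_eq_div, le_div_iff₀ hM0]
    linarith
  have h3 : (g : ℝ) ≤ Real.exp N := by
    have h4 : (g : ℝ) ≤ 2 ^ N := by exact_mod_cast hg
    have h5 : (2 : ℝ) ^ N ≤ Real.exp 1 ^ N := pow_le_pow_left₀ (by norm_num) e1 N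
    rw [← Real.exp_nat_mul, mul_one] at h5
    exact h4.trans h5
  calc (1 - 1 / M) ^ (numT d c N) * (g : ℝ)
      ≤ Real.exp (-((N : ℝ) + 3)) * Real.exp N :=
        mul_le_mul (h1.trans h2) h3 (Nat.cast_nonneg g) (Real.exp_pos _).le
    _ = (Real.exp 3)⁻¹ := by
        rw [← Real.exp_add, ← Real.exp_neg]
        congr 1
        ring
    _ ≤ 1 / 9 := by
        rw [one_div]
        exact inv_anti₀ (by norm_num) e3

/-- `(1 - 1 / 2 ^ k) ^ t ≤ exp (-t / 2 ^ k)` for `t = 2 (N ^ c + c) ≥ 2 * 2 ^ k`, and `exp (-2) ≤ 1 / 3` -/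
theorem num_nil (c N k : ℕ) (hk : 2 ^ k ≤ N ^ c + c) :
    ((1 : ℝ) - 1 / 2 ^ k) ^ (2 * (N ^ c + c)) ≤ 1 / 3 := by
  obtain ⟨-, -, e2⟩ := numW_exp
  have hp : (0 : ℝ) < 2 ^ k := by positivity
  have h0 : (1 : ℝ) / 2 ^ k ≤ 1 := by
    rw [div_le_one hp]
    exact one_le_pow₀ (by norm_num)
  have h1 := numW_pow h0 (2 * (N ^ c + c))
  refine h1.trans ?_
  have hk' : (2 : ℝ) ^ k ≤ (N : ℝ) ^ c + c := by exact_mod_cast hk
  have h2 : Real.exp (-(1 / 2 ^ k * ((2 * (N ^ c + c) : ℕ) : ℝ))) ≤ Real.exp (-2) := by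
    rw [Real.exp_le_exp, neg_le_neg_iff, one_div, inv_mul_eq_div, le_div_iff₀ hp]
    push_cast
    linarith
  refine h2.trans ?_
  rw [Real.exp_neg, one_div]
  exact inv_anti₀ (by norm_num) e2

/-- `k ≤ 2 ^ k` -/
theorem num_nil2 (d c N k : ℕ) (hk : 2 ^ k ≤ N ^ c + c) : k * (2 * (N ^ c + c)) ≤ numT d c N := by
  have h1 : k ≤ N ^ c + c := (Nat.lt_two_pow_self).le.trans hk
  calc k * (2 * (N ^ c + c)) ≤ (N ^ c + c) * (2 * (N ^ c + c)) := Nat.mul_le_mul_right _ h1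
    _ = 2 * (N ^ c + c) ^ 2 := by ring
    _ ≤ numT d c N := Nat.le_add_left _ _

end Pool.Agent.MPa0c355.Wk
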