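import Pool.Agent.Lib.MP_a0c355_lc.Wk.Defs

/-! # Expectation rules for the random walk program -/

set_option autoImplicit false

namespace Pool.Agent.MPa0c355.Wk

open scoped ENNReal

variable {G : Type} [Group G] {N : ℕ}

open Classical in
/-- As `B12.W_testP`, but scratch cell 7 is kept as well: use `B12.W_powCmd` (the new memory is
`wr τ.mem 6 _`) and then unfold `testCmd` as in the proof of `W_test` in `../PhaseB.lean`
(it writes scratch cell 5, Boolean 2 and possibly Boolean 0). -/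
theorem W_testW (d : ℕ) (τ : St G) (f : St G → ℝ≥0∞) (c e : ℝ≥0∞)
    (hf : ∀ τ' : St G, (∀ i j, τ'.mem 0 i j = τ.mem 0 i j) → τ'.mem 1 0 7 = τ.mem 1 0 7 →
      f τ' ≤ if τ'.bv 0 = true then c else e) :
    W N (B12.testP d (sc 7)) f τ ≤ if τ.bv 0 = true ∧ (τ.mem 1 0 7) ^ d = 1 then c else e := by
  rw [B12.testP, W_seq]
  apply B12.W_powCmd (sc 7) d τ (by simp [sc, Expr.eval])
  intro τ' h1 h2 h3
  rw [testCmd, W_seq, W_gone, W_seq, W_geq, W_ite, W_skip, W_set]
  set τ1 := (τ'.put N (sc 5) 1).tick with hτ1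
  have g0 : τ.get N (sc 7) = τ.mem 1 0 7 := rfl
  rw [g0] at h1
  have g1 : τ1.get N (sc 6) = (τ.mem 1 0 7) ^ d := by
    have h4 : τ1.get N (sc 6) = τ'.mem 1 0 6 := by
      simp [τ1, St.get, St.put, St.tick, sc, Expr.eval]
    rw [h4, h1, wr_self]
  have g2 : τ1.get N (sc 5) = 1 := by
    simp [τ1, St.get, St.put, St.tick, sc, Expr.eval]
  have hm : ∀ i j, τ1.mem 0 i j = τ.mem 0 i j := by
    intro i j
    have h4 : τ1.mem 0 i j = τ'.mem 0 i j := by
      simp [τ1, St.put, St.tick, sc]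
    rw [h4, h1, wr_ne _ _ _ (by simp)]
  have hm7 : τ1.mem 1 0 7 = τ.mem 1 0 7 := by
    have h4 : τ1.mem 1 0 7 = τ'.mem 1 0 7 := by
      simp [τ1, St.put, St.tick, sc, Expr.eval]
    rw [h4, h1, wr_ne _ _ _ (by simp)]
  have hb : τ1.bv = τ.bv := h3
  rw [g1, g2]
  by_cases hg : (τ.mem 1 0 7) ^ d = 1
  · have h5 : ((τ1.setb 2 (decide ((τ.mem 1 0 7) ^ d = 1))).tick).bv 2 = true := by
      simp [St.setb, St.tick, hg]
    rw [if_pos h5]
    refine (hf ((τ1.setb 2 (decide ((τ.mem 1 0 7) ^ d = 1))).tick.tick) hm hm7).trans ?_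
    have h4 : ((τ1.setb 2 (decide ((τ.mem 1 0 7) ^ d = 1))).tick.tick).bv 0 = τ.bv 0 := by
      simp [St.setb, St.tick, hb]
    rw [h4]
    simp only [hg, and_true]
    exact le_rfl
  · have h5 : ¬ ((τ1.setb 2 (decide ((τ.mem 1 0 7) ^ d = 1))).tick).bv 2 = true := by
      simp [St.setb, St.tick, hg]
    rw [if_neg h5]
    refine (hf (((τ1.setb 2 (decide ((τ.mem 1 0 7) ^ d = 1))).tick.tick.setb 0 false).tick)
      hm hm7).trans ?_
    rw [if_neg (by simp [St.setb, St.tick]), if_neg (fun h => hg h.2)]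

omit [Group G] in
theorem ProgW_drop (r : ℕ → G) {a : ℕ} (ha : a < N) :
    (gens N r).drop a = r a :: (gens N r).drop (a + 1) := by
  unfold gens
  have hl : a < ((List.range N).map r).length := by
    rw [List.length_map, List.length_range]
    exact ha
  rw [List.drop_eq_getElem_cons hl]
  congr 1
  rw [List.getElem_map, List.getElem_range]

omit [Group G] in
theorem ProgW_drop_all (r : ℕ → G) : (gens N r).drop N = [] := by
  apply List.drop_eq_nil_of_le
  unfold gens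
  rw [List.length_map, List.length_range]

theorem ProgW_half {a b : ℝ} (ha : 0 ≤ a) (hb : 0 ≤ b) :
    (ENNReal.ofReal a + ENNReal.ofReal b) / 2 = ENNReal.ofReal ((b + a) / 2) := by
  rw [← ENNReal.ofReal_add ha hb, ENNReal.ofReal_div_of_pos (by norm_num), add_comm a b]
  norm_num

open Classical in
/-- `W_seq`; `W_loop_le` for the inner loop with `Φ a ρ = ⊤` unless all cells of row 0 of array 0 are as in
`r`, and then `ofReal (avgL ((gens N r).drop a) (cut Z u) (ρ.mem 1 0 7))` if Boolean 0 of `ρ` is true and 0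
otherwise, `Z = {x | x ^ d = 1}`; the step is `W_coin_mul` (`List.drop_eq_getElem_cons`, counter 1 is `a`) and
`(ofReal x + ofReal y) / 2 = ofReal ((x + y) / 2)`; the last step is `W_testW`. -/
theorem W_cycle (d : ℕ) (u : G → ℝ) (hu : ∀ x, 0 ≤ u x) (r : ℕ → G) (τ : St G)
    (hτ : ∀ j, τ.mem 0 0 j = r j) (f : St G → ℝ≥0∞)
    (hf : ∀ τ' : St G, (∀ j, τ'.mem 0 0 j = r j) →
      f τ' ≤ if τ'.bv 0 = true then ENNReal.ofReal (u (τ'.mem 1 0 7)) else 0) :
    W N (cycle d) f τ ≤ if τ.bv 0 = true then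
      ENNReal.ofReal (avgL (gens N r) (cut {x | x ^ d = 1} u) (τ.mem 1 0 7)) else 0 := by
  rw [cycle, W_seq]
  set Z : Set G := {x | x ^ d = 1} with hZ
  have hcut : ∀ x, 0 ≤ cut Z u x := cut_nonneg Z u hu
  let Φ : ℕ → St G → ℝ≥0∞ := fun a ρ => if ∀ j, ρ.mem 0 0 j = r j then
    (if ρ.bv 0 = true then ENNReal.ofReal (avgL ((gens N r).drop a) (cut Z u) (ρ.mem 1 0 7))
      else 0) else ⊤
  have hΦ : ∀ a (ρ : St G), (∀ j, ρ.mem 0 0 j = r j) → Φ a ρ = if ρ.bv 0 = true then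
      ENNReal.ofReal (avgL ((gens N r).drop a) (cut Z u) (ρ.mem 1 0 7)) else 0 :=
    fun a ρ h => if_pos h
  have hΦt : ∀ a (ρ : St G), (¬ ∀ j, ρ.mem 0 0 j = r j) → Φ a ρ = ⊤ := fun a ρ h => if_neg h
  have key := W_loop_le (N := N) 1 Polynomial.X mulStep Φ
    (fun ρ => W N (B12.testP d (sc 7)) f ρ) ?_ ?_ τ
  · refine key.trans ?_
    rw [hΦ 0 τ hτ, List.drop_zero]
  · intro ρ
    rw [Polynomial.eval_X]
    by_cases hρ : ∀ j, ρ.mem 0 0 j = r j
    · rw [hΦ N ρ hρ, ProgW_drop_all]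
      refine (W_testW d ρ f (ENNReal.ofReal (u (ρ.mem 1 0 7))) 0 ?_).trans ?_
      · intro τ' h1 h2
        have h3 := hf τ' (fun j => (h1 0 j).trans (hρ j))
        rw [h2] at h3
        exact h3
      · by_cases h1 : ρ.bv 0 = true
        · by_cases h2 : (ρ.mem 1 0 7) ^ d = 1
          · rw [if_pos ⟨h1, h2⟩, if_pos h1]
            apply le_of_eq
            congr 1
            simp only [avgL, cut]
            rw [if_pos (show ρ.mem 1 0 7 ∈ Z from h2)]
          · rw [if_neg (fun h => h2 h.2)]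
            exact zero_le
        · rw [if_neg (fun h => h1 h.1)]
          exact zero_le
    · rw [hΦt N ρ hρ]
      exact le_top
  · intro a ha ρ
    rw [Polynomial.eval_X] at ha
    by_cases hρ : ∀ j, ρ.mem 0 0 j = r j
    · rw [hΦ a ρ hρ, mulStep]
      set ρ0 := (ρ.setn 1 a).tick with hρ0
      have hg : ρ0.get N ⟨0, .const 0, .var 1⟩ = r a := by
        have h1 : ρ0.get N ⟨0, .const 0, .var 1⟩ = ρ.mem 0 0 a := by
          simp [ρ0, St.get, St.setn, St.tick, Expr.eval]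
        rw [h1, hρ]
      have hm0 : ρ0.mem = ρ.mem := rfl
      have hb0 : ρ0.bv = ρ.bv := rfl
      have hstep := W_coin_mul (N := N) 7 ⟨0, .const 0, .var 1⟩ (Φ (a + 1)) ρ0
        (if ρ.bv 0 = true then ENNReal.ofReal (avgL ((gens N r).drop (a + 1)) (cut Z u)
          (ρ.mem 1 0 7 * r a)) else 0)
        (if ρ.bv 0 = true then ENNReal.ofReal (avgL ((gens N r).drop (a + 1)) (cut Z u)
          (ρ.mem 1 0 7)) else 0) ?_ ?_
      · refine hstep.trans ?_
        by_cases h1 : ρ.bv 0 = true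
        · rw [if_pos h1, if_pos h1, if_pos h1, ProgW_half (avgL_nonneg _ _ hcut _)
            (avgL_nonneg _ _ hcut _), ProgW_drop r ha]
          exact le_rfl
        · rw [if_neg h1, if_neg h1, if_neg h1]
          simp
      · intro τ' h1 h2 h3
        rw [hg, hm0] at h1
        rw [hb0] at h3
        have h4 : ∀ j, τ'.mem 0 0 j = r j := by
          intro j
          rw [h1, wr_ne _ _ _ (by simp)]
          exact hρ j
        rw [hΦ _ τ' h4, h3, h1, wr_self]
      · intro τ' h1 h2 h3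
        rw [hm0] at h1
        rw [hb0] at h3
        have h4 : ∀ j, τ'.mem 0 0 j = r j := by
          intro j
          rw [h1]
          exact hρ j
        rw [hΦ _ τ' h4, h3, h1]
    · rw [hΦt a ρ hρ]
      exact le_top

open Classical in
/-- `W_seq`, `W_set`, `W_gone`, then `W_loop_le` with `Φ i τ = ⊤` unless row 0 of array 0 is as in `σ`, and then
`ofReal (surv (gens N (σ.mem 0 0)) Z (T - i) (τ.mem 1 0 7))` if Boolean 0 is true, 0 otherwise, `T = Tp.eval N`;
the step is `W_cycle` with `u = surv _ Z (T - (i + 1))`. -/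
theorem W_walk (d : ℕ) (Tp : Polynomial ℕ) (σ : St G) (f : St G → ℝ≥0∞)
    (hf : ∀ τ, f τ ≤ if τ.bv 0 = true then 1 else 0) :
    W N (walkP d Tp) f σ ≤
      ENNReal.ofReal (surv (gens N (σ.mem 0 0)) {x | x ^ d = 1} (Tp.eval N) 1) := by
  rw [walkP, W_seq, W_set, W_seq, W_gone]
  set σ0 := (((σ.setb 0 true).tick).put N (sc 7) 1).tick with hσ0
  set Z : Set G := {x | x ^ d = 1} with hZ
  set T := Tp.eval N with hT
  let Φ : ℕ → St G → ℝ≥0∞ := fun i ρ => if ∀ j, ρ.mem 0 0 j = σ.mem 0 0 j then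
    (if ρ.bv 0 = true then ENNReal.ofReal (surv (gens N (σ.mem 0 0)) Z (T - i) (ρ.mem 1 0 7))
      else 0) else ⊤
  have hΦ : ∀ a (ρ : St G), (∀ j, ρ.mem 0 0 j = σ.mem 0 0 j) → Φ a ρ = if ρ.bv 0 = true then
      ENNReal.ofReal (surv (gens N (σ.mem 0 0)) Z (T - a) (ρ.mem 1 0 7)) else 0 :=
    fun a ρ h => if_pos h
  have hΦt : ∀ a (ρ : St G), (¬ ∀ j, ρ.mem 0 0 j = σ.mem 0 0 j) → Φ a ρ = ⊤ :=
    fun a ρ h => if_neg h
  have key := W_loop_le (N := N) 3 Tp (cycle d) Φ f ?_ ?_ σ0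
  · refine key.trans ?_
    have h1 : ∀ j, σ0.mem 0 0 j = σ.mem 0 0 j := by
      intro j
      simp [σ0, St.put, St.tick, St.setb, sc]
    have h2 : σ0.bv 0 = true := by
      simp [σ0, St.put, St.tick, St.setb]
    have h3 : σ0.mem 1 0 7 = 1 := by
      simp [σ0, St.put, St.tick, St.setb, sc, Expr.eval]
    rw [hΦ 0 σ0 h1, if_pos h2, h3, Nat.sub_zero]
  · intro ρ
    by_cases hρ : ∀ j, ρ.mem 0 0 j = σ.mem 0 0 j
    · rw [hΦ _ ρ hρ, ← hT, Nat.sub_self]
      refine (hf ρ).trans ?_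
      by_cases h1 : ρ.bv 0 = true
      · rw [if_pos h1, if_pos h1]
        simp [surv]
      · rw [if_neg h1, if_neg h1]
    · rw [hΦt _ ρ hρ]
      exact le_top
  · intro i hi ρ
    rw [← hT] at hi
    by_cases hρ : ∀ j, ρ.mem 0 0 j = σ.mem 0 0 j
    · rw [hΦ _ ρ hρ]
      have h1 : T - i = (T - (i + 1)) + 1 := by omega
      have h2 := W_cycle (N := N) d (surv (gens N (σ.mem 0 0)) Z (T - (i + 1)))
        (surv_nonneg _ _ _) (σ.mem 0 0) (ρ.setn 3 i).tick hρ (Φ (i + 1))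
        (fun τ' h3 => le_of_eq (hΦ _ τ' h3))
      refine h2.trans ?_
      rw [h1]
      exact le_rfl
    · rw [hΦt _ ρ hρ]
      exact le_top

theorem ProgW_same (c : ℝ≥0∞) : (c + c) / 2 = c := by
  rw [← two_mul, mul_comm, ENNReal.mul_div_cancel_right (by norm_num) (by norm_num)]

/-- If `x ^ d = 1` for all `x` then Boolean 0 stays true: `W_loop_le` with `Φ _ τ = 0` if Boolean 0 is true and 1
otherwise (`W_testW` with `c = 0`, `e = 1`; `W_coin_mul` for the inner loop). -/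
theorem W_walk_compl (d : ℕ) (Tp : Polynomial ℕ) (hG : ∀ x : G, x ^ d = 1) (σ : St G)
    (f : St G → ℝ≥0∞) (hf : ∀ τ, f τ ≤ if τ.bv 0 = true then 0 else 1) :
    W N (walkP d Tp) f σ ≤ 0 := by
  classical
  rw [walkP, W_seq, W_set, W_seq, W_gone]
  set σ0 := (((σ.setb 0 true).tick).put N (sc 7) 1).tick with hσ0
  let Ψ : St G → ℝ≥0∞ := fun τ => if τ.bv 0 = true then 0 else 1
  have hΨ : ∀ τ, Ψ τ = if τ.bv 0 = true then 0 else 1 := fun _ => rfl
  have key := W_loop_le (N := N) 3 Tp (cycle d) (fun _ => Ψ) f hf ?_ σ0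
  · refine key.trans ?_
    have h2 : σ0.bv 0 = true := by
      simp [σ0, St.put, St.tick, St.setb]
    change Ψ σ0 ≤ 0
    rw [hΨ, if_pos h2]
  · intro i _ ρ
    rw [cycle, W_seq]
    have key2 := W_loop_le (N := N) 1 Polynomial.X mulStep (fun _ => Ψ)
      (fun ρ => W N (B12.testP d (sc 7)) Ψ ρ) ?_ ?_ (ρ.setn 3 i).tick
    · exact key2
    · intro τ
      refine (W_testW d τ Ψ 0 1 (fun τ' _ _ => le_of_eq (hΨ τ'))).trans ?_
      change _ ≤ Ψ τ
      rw [hΨ]
      by_cases h1 : τ.bv 0 = true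
      · rw [if_pos ⟨h1, hG _⟩, if_pos h1]
      · rw [if_neg h1, if_neg (fun h => h1 h.1)]
    · intro a _ τ
      rw [mulStep]
      refine (W_coin_mul (N := N) 7 ⟨0, .const 0, .var 1⟩ Ψ (τ.setn 1 a).tick (Ψ τ) (Ψ τ)
        ?_ ?_).trans (le_of_eq (ProgW_same _))
      · intro τ' _ _ h3
        rw [hΨ, hΨ, h3]
        exact le_rfl
      · intro τ' _ _ h3
        rw [hΨ, hΨ, h3]
        exact le_rfl

end Pool.Agent.MPa0c355.Wk
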