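import Pool.Agent.Lib.MP_a0c355_lc.Wk.Defs

/-! # Short words that detect all functions of a translation invariant space -/

set_option autoImplicit false

namespace Pool.Agent.MPa0c355.Wk

variable {G : Type} [Group G] {𝔽 : Type} [Field 𝔽]

/-- the functions of `V` that vanish on `L` -/
def spaceZ (V : Submodule 𝔽 (G → 𝔽)) (L : List G) : Submodule 𝔽 (G → 𝔽) where
  carrier := {v | v ∈ V ∧ ∀ u ∈ L, v u = 0}
  add_mem' := by
    rintro a b ⟨ha, ha'⟩ ⟨hb, hb'⟩
    exact ⟨V.add_mem ha hb, fun u hu => by rw [Pi.add_apply, ha' u hu, hb' u hu, add_zero]⟩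
  zero_mem' := ⟨V.zero_mem, fun _ _ => rfl⟩
  smul_mem' := by
    rintro c a ⟨ha, ha'⟩
    exact ⟨V.smul_mem c ha, fun u hu => by rw [Pi.smul_apply, ha' u hu, smul_zero]⟩

theorem space_mem {V : Submodule 𝔽 (G → 𝔽)} {L : List G} {v : G → 𝔽} :
    v ∈ spaceZ V L ↔ v ∈ V ∧ ∀ u ∈ L, v u = 0 := Iff.rfl

/-- if no new word detects anything, nothing is left -/
theorem space_zero [Finite G] (V : Submodule 𝔽 (G → 𝔽))
    (hr : ∀ y, ∀ v ∈ V, (fun x => v (x * y)) ∈ V) (l : List G)
    (hgen : Subgroup.closure {g | g ∈ l} = ⊤) (L : List G) (h1 : (1 : G) ∈ L)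
    (h : ∀ u ∈ L, ∀ g ∈ l, ∀ v ∈ spaceZ V L, v (u * g) = 0) : ∀ v ∈ spaceZ V L, v = 0 := by
  have hS : ∀ y : G, ∀ v ∈ spaceZ V L, (fun x => v (x * y)) ∈ spaceZ V L := by
    intro y
    have hy : y ∈ Submonoid.closure {g | g ∈ l} := by
      rw [← Subgroup.closure_toSubmonoid_of_finite, hgen]
      trivial
    induction hy using Submonoid.closure_induction with
    | mem g hg =>
      intro v hv
      exact ⟨hr g v hv.1, fun u hu => h u hu g hg v hv⟩
    | one =>
      intro v hv
      simpa using hv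
    | mul y z _ _ hy hz =>
      intro v hv
      have h2 := hy _ (hz v hv)
      simpa only [mul_assoc] using h2
  intro v hv
  funext y
  have h2 : v (1 * y) = 0 := (hS y v hv).2 1 h1
  rw [one_mul] at h2
  exact h2

theorem space_ind [Finite G] (V : Submodule 𝔽 (G → 𝔽))
    (hr : ∀ y, ∀ v ∈ V, (fun x => v (x * y)) ∈ V) (l : List G)
    (hgen : Subgroup.closure {g | g ∈ l} = ⊤) (d : ℕ) : ∀ L : List G, (1 : G) ∈ L →
      (∀ u ∈ L, ∃ m : List G, m.length + 1 ≤ L.length ∧ (∀ g ∈ m, g ∈ l) ∧ u = m.prod) →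
      Module.finrank 𝔽 (spaceZ V L) ≤ d → ∃ L' : List G, L'.length ≤ L.length + d ∧
        (∀ u ∈ L', ∃ m : List G, m.length + 1 ≤ L'.length ∧ (∀ g ∈ m, g ∈ l) ∧ u = m.prod) ∧
        ∀ v ∈ V, (∀ u ∈ L', v u = 0) → v = 0 := by
  induction d with
  | zero =>
    intro L h1 hw hd
    have h2 : spaceZ V L = ⊥ := Submodule.finrank_eq_zero.1 (by omega)
    refine ⟨L, le_rfl, hw, fun v hv hu => ?_⟩
    have h3 : v ∈ spaceZ V L := ⟨hv, hu⟩
    rw [h2, Submodule.mem_bot] at h3
    exact h3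
  | succ d ih =>
    intro L h1 hw hd
    by_cases h : ∀ u ∈ L, ∀ g ∈ l, ∀ v ∈ spaceZ V L, v (u * g) = 0
    · exact ⟨L, by omega, hw, fun v hv hu => space_zero V hr l hgen L h1 h v ⟨hv, hu⟩⟩
    · push Not at h
      obtain ⟨u, hu, g, hg, v, hv, hne⟩ := h
      have hlt : spaceZ V ((u * g) :: L) < spaceZ V L := by
        refine lt_of_le_of_ne ?_ ?_
        · rintro w ⟨hw1, hw2⟩
          exact ⟨hw1, fun x hx => hw2 x (List.mem_cons_of_mem _ hx)⟩
        · intro heq
          rw [← heq] at hv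
          exact hne (hv.2 _ (by simp))
      have hfr := Submodule.finrank_lt_finrank_of_lt hlt
      obtain ⟨L', a1, a2, a3⟩ := ih ((u * g) :: L) (List.mem_cons_of_mem _ h1) (by
        intro x hx
        rcases List.mem_cons.1 hx with rfl | hx
        · obtain ⟨m, b1, b2, b3⟩ := hw u hu
          refine ⟨m ++ [g], ?_, ?_, ?_⟩
          · simp only [List.length_append, List.length_cons, List.length_nil]
            omega
          · intro y hy
            rcases List.mem_append.1 hy with hy | hy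
            · exact b2 y hy
            · rw [List.mem_singleton.1 hy]
              exact hg
          · rw [List.prod_append, List.prod_singleton, b3]
        · obtain ⟨m, b1, b2, b3⟩ := hw x hx
          exact ⟨m, by rw [List.length_cons]; omega, b2, b3⟩) (by omega)
      exact ⟨L', by rw [List.length_cons] at a1; omega, a2, a3⟩

/-- For a list `L` of group elements let `Z L` be the space of all `v ∈ V` that vanish on `L`.
Claim: if `1 ∈ L`, all elements of `L` are products of at most `L.length` elements of `l`, then there is `L'` with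
the same properties, `L'.length ≤ L.length + finrank (Z L)` and `Z L' = ⊥`.  Induction on `finrank (Z L)`: if
`Z L ≠ ⊥` there are `u ∈ L`, `g ∈ l` and `v ∈ Z L` with `v (u * g) ≠ 0` (otherwise `Z L` is invariant under
right translation by the elements of `l`, hence by all elements of `G`, as `G` is finite, and then
`v y = 0` for all `y` since `1 ∈ L`); add `u * g` to `L`.  Start with `L = [1]`. -/
theorem detect [Finite G] (V : Submodule 𝔽 (G → 𝔽)) (hfin : Module.Finite 𝔽 V)
    (hr : ∀ y, ∀ v ∈ V, (fun x => v (x * y)) ∈ V) (l : List G)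
    (hgen : Subgroup.closure {g | g ∈ l} = ⊤) : ∃ L : List G, L.length ≤ Module.finrank 𝔽 V + 1 ∧
      (∀ u ∈ L, ∃ m : List G, m.length ≤ Module.finrank 𝔽 V + 1 ∧ (∀ g ∈ m, g ∈ l) ∧ u = m.prod) ∧
      ∀ v ∈ V, (∀ u ∈ L, v u = 0) → v = 0 := by
  have hle : spaceZ V [1] ≤ V := fun v hv => hv.1
  obtain ⟨L', a1, a2, a3⟩ := space_ind V hr l hgen (Module.finrank 𝔽 V) [1] (by simp) (by
    intro u hu
    rw [List.mem_singleton.1 hu]
    exact ⟨[], by simp, by simp, by simp⟩) (Submodule.finrank_mono hle)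
  rw [List.length_singleton] at a1
  refine ⟨L', by omega, fun u hu => ?_, a3⟩
  obtain ⟨m, b1, b2, b3⟩ := a2 u hu
  exact ⟨m, by omega, b2, b3⟩

/-- `detect`, applied to the left translates of `v` (fill up with the identity) -/
theorem exists_words [Finite G] (V : Submodule 𝔽 (G → 𝔽)) (hfin : Module.Finite 𝔽 V)
    (hr : ∀ y, ∀ v ∈ V, (fun x => v (x * y)) ∈ V) (hl : ∀ y, ∀ v ∈ V, (fun x => v (y * x)) ∈ V)
    (l : List G) (hgen : Subgroup.closure {g | g ∈ l} = ⊤) (v : G → 𝔽) (hv : v ∈ V) (hv0 : v ≠ 0)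
    (K : ℕ) (hK : Module.finrank 𝔽 V + 1 ≤ K) : ∃ w : Fin K → G,
      (∀ j, ∃ m : List G, m.length ≤ K ∧ (∀ g ∈ m, g ∈ l) ∧ w j = m.prod) ∧
      ∀ x, ∃ j, v (x * w j) ≠ 0 := by
  classical
  obtain ⟨L, a1, a2, a3⟩ := detect V hfin hr l hgen
  refine ⟨fun j => if h : j.1 < L.length then L[j.1] else 1, ?_, ?_⟩
  · intro j
    by_cases h : j.1 < L.length
    · obtain ⟨m, b1, b2, b3⟩ := a2 L[j.1] (List.getElem_mem h)
      exact ⟨m, by omega, b2, by simp only [h, dif_pos]; exact b3⟩
    · exact ⟨[], by simp, by simp, by simp only [h, dif_neg, not_false_eq_true, List.prod_nil]⟩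
  · intro x
    by_contra hcon
    push Not at hcon
    have h2 : (fun y => v (x * y)) = 0 := by
      apply a3 _ (hl x v hv)
      intro u hu
      obtain ⟨i, hi, rfl⟩ := List.mem_iff_getElem.1 hu
      have h3 := hcon ⟨i, by omega⟩
      simp only [hi, dif_pos] at h3
      exact h3
    apply hv0
    funext y
    have h3 : v (x * (x⁻¹ * y)) = 0 := congrFun h2 (x⁻¹ * y)
    rw [mul_inv_cancel_left] at h3
    exact h3

end Pool.Agent.MPa0c355.Wk
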