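import Pool.Agent.Lib.MP_a0c355_lc.B12.FinalB
import Pool.Agent.Lib.MP_a0c355_lc.Wk.ProgW
import Pool.Agent.Lib.MP_a0c355_lc.Wk.Energy
import Pool.Agent.Lib.MP_a0c355_lc.Wk.Space
import Pool.Agent.Lib.MP_a0c355_lc.Wk.Coef
import Pool.Agent.Lib.MP_a0c355_lc.Wk.CubeC
import Pool.Agent.Lib.MP_a0c355_lc.Wk.NumW

/-! # The random walk algorithm decides `x ^ d = 1` for linear and for nilpotent groups -/

set_option autoImplicit false

namespace Pool.Agent.MPa0c355.Wk

open scoped ENNReal

/-- `G` has a homomorphism to a group of matrices of degree at most `b` over some field, or to a nilpotent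
group of class at most `k` with `2 ^ k ≤ b`, whose image is not of exponent dividing `d`. -/
def Detected (d b : ℕ) (G : Type) [Group G] : Prop :=
  (∃ (F : Type) (_ : Field F) (D : ℕ) (φ : G →* Matrix (Fin D) (Fin D) F) (x : G),
    D ≤ b ∧ φ (x ^ d) ≠ 1) ∨
  (∃ (Q : Type) (_ : Group Q) (k : ℕ) (φ : G →* Q) (x : G),
    2 ^ k ≤ b ∧ (⊤ : Subgroup Q).lowerCentralSeries k = ⊥ ∧ φ (x ^ d) ≠ 1)

variable {G : Type} [Group G] {N : ℕ}

/-- `surv` is antitone in the number of cycles -/
theorem surv_antitone (l : List G) (Z : Set G) {s t : ℕ} (h : s ≤ t) (x : G) :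
    surv l Z t x ≤ surv l Z s x := by
  have step : ∀ t x, surv l Z (t + 1) x ≤ surv l Z t x := by
    intro t
    induction t with
    | zero => exact fun x => surv_le_one l Z 1 x
    | succ t ih =>
      intro x
      refine avgL_mono l (cut Z (surv l Z (t + 1))) (cut Z (surv l Z t)) (fun y => ?_) x
      simp only [cut]
      split_ifs
      · exact ih y
      · exact le_rfl
  induction t, h using Nat.le_induction with
  | base => exact le_rfl
  | succ t _ ih => exact (step t x).trans ih

/-- first case: `coef_space`, `coefSp_finite`, `exists_words` with `K = numK d c N` (`D ≤ N ^ c + c`), `surv_bound` with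
`Z = {x | x ^ d = 1}`, `num_lin`; second case: `nil_surv` with `t = 2 (N ^ c + c)`, `num_nil`, `num_nil2`,
`surv_antitone`.  `l = gens N r` has length `N`. -/
theorem surv_small [Finite G] (d c : ℕ) (r : ℕ → G) (hgen : Subgroup.closure {g | g ∈ gens N r} = ⊤)
    (hcard : Nat.card G ≤ 2 ^ N) (h : Detected d (N ^ c + c) G) :
    surv (gens N r) {x | x ^ d = 1} (numT d c N) 1 ≤ 1 / 3 := by
  have hlen : (gens N r).length = N := by
    rw [gens, List.length_map, List.length_range]
  rcases h with ⟨F, _, D, φ, x₀, hD, hx⟩ | ⟨Q, _, k, φ, x₀, h2k, hk, hx⟩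
  · -- matrices
    have : Fintype G := Fintype.ofFinite G
    obtain ⟨v, hv, hv0, hvd⟩ := coef_space φ d x₀ hx
    obtain ⟨hfin, hfr⟩ := coefSp_finite φ d
    have hK : Module.finrank F (coefSp φ d) + 1 ≤ numK d c N := by
      rw [numK]
      have h1 : (D ^ 2 + 1) ^ d ≤ ((N ^ c + c) ^ 2 + 1) ^ d :=
        Nat.pow_le_pow_left (Nat.succ_le_succ (Nat.pow_le_pow_left hD 2)) d
      omega
    obtain ⟨w, hw, hwv⟩ := exists_words (coefSp φ d) hfin (fun y v hv => coefSp_right φ d y v hv)
      (fun y v hv => coefSp_left φ d y v hv) (gens N r) hgen v hv hv0 (numK d c N) hK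
    have hb := surv_bound (gens N r) {x | x ^ d = 1} (numK d c N) w hw (fun x => by
      obtain ⟨j, hj⟩ := hwv x
      exact ⟨j, fun hmem => hj (hvd _ hmem)⟩) (numT d c N)
    have hn := num_lin d c N (Nat.card G) hcard
    rw [hlen] at hb
    have h0 := surv_nonneg (gens N r) {x : G | x ^ d = 1} (numT d c N) 1
    have h9 : surv (gens N r) {x | x ^ d = 1} (numT d c N) 1 ^ 2 ≤ 1 / 9 := hb.trans hn
    by_contra hlt
    push Not at hlt
    nlinarith
  · -- nilpotent images
    rw [map_pow] at hx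
    have h1 := nil_surv φ k hk d (gens N r) hgen x₀ hx (2 * (N ^ c + c)) 1
    exact ((surv_antitone (gens N r) _ (num_nil2 d c N k h2k) 1).trans h1).trans
      (num_nil c N k h2k)

/-- As `gDecidable_B12`: `cost_PB`, `run_time`, `FinalB_exec_map`, `W_walk`, `W_walk_compl`, `surv_small`,
`polT_eval`; row 0 of the initial state contains the generating tuple in the first `m ≤ n + m` cells;
`n ^ c + c ≤ (n + m) ^ c + c`. -/
theorem walk_decides (d c : ℕ) : ∃ (P : Cmd) (C : ℕ), ∀ (n : ℕ) (B : BBGroup n) (m : ℕ)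
    (s : Fin m → B.Code), Subgroup.closure (Set.range fun i => B.val (s i)) = ⊤ →
    (∀ τ ∈ (B.exec P s).support, τ.time ≤ C * (n + m + 1) ^ C) ∧
    ((∀ x : B.G, x ^ d = 1) → ((B.exec P s).map fun τ => τ.bv 0) true = 1) ∧
    (Detected d (n ^ c + c) B.G → 2 / 3 ≤ ((B.exec P s).map fun τ => τ.bv 0) false) := by
  obtain ⟨C, hC⟩ := cost_PB (walkP d (polT d c))
  refine ⟨walkP d (polT d c), C, ?_⟩
  intro n B m s hs
  have hcard : Nat.card B.G ≤ 2 ^ (n + m) :=
    (card_le_two_pow B).trans (Nat.pow_le_pow_right (by norm_num) (by omega))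
  have hgen : Subgroup.closure
      {g | g ∈ gens (n + m) (((initSt B.oracle s).mapMem B.val).mem 0 0)} = ⊤ := by
    rw [eq_top_iff, ← hs, Subgroup.closure_le]
    rintro g ⟨i, rfl⟩
    refine Subgroup.subset_closure ?_
    show B.val (s i) ∈ gens (n + m) (((initSt B.oracle s).mapMem B.val).mem 0 0)
    rw [gens, List.mem_map]
    refine ⟨i, List.mem_range.2 (by have := i.2; omega), ?_⟩
    simp [St.mapMem, initSt, i.2]
  refine ⟨?_, ?_, ?_⟩
  · intro τ hτ
    have h1 := run_time B.oracle (n + m) (walkP d (polT d c)) (initSt B.oracle s) τ hτ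
    have h2 := hC (n + m)
    have h3 : (initSt B.oracle s).time = 0 := rfl
    rw [h3, zero_add] at h1
    exact h1.trans h2
  · intro hG
    have h1 : ((B.exec (walkP d (polT d c)) s).map fun τ => τ.bv 0) false ≤ 0 := by
      rw [B12.FinalB_exec_map]
      refine W_walk_compl d (polT d c) hG _ _ ?_
      intro τ
      cases τ.bv 0 <;> simp
    have h2 := bool_pmf ((B.exec (walkP d (polT d c)) s).map fun τ => τ.bv 0)
    rw [nonpos_iff_eq_zero.1 h1, add_zero] at h2
    exact h2
  · intro hG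
    refine two_thirds _ _ (by rw [add_comm]; exact bool_pmf _) ?_
    rw [B12.FinalB_exec_map]
    refine (W_walk d (polT d c) _ _ ?_).trans ?_
    · intro τ
      cases τ.bv 0 <;> simp
    · have hD : Detected d ((n + m) ^ c + c) B.G := by
        have hle : n ^ c + c ≤ (n + m) ^ c + c :=
          Nat.add_le_add_right (Nat.pow_le_pow_left (Nat.le_add_right n m) c) c
        rcases hG with ⟨F, iF, D, φ, x₀, hD, hx⟩ | ⟨Q, iQ, k, φ, x₀, h2k, hk, hx⟩
        · exact Or.inl ⟨F, iF, D, φ, x₀, hD.trans hle, hx⟩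
        · exact Or.inr ⟨Q, iQ, k, φ, x₀, h2k.trans hle, hk, hx⟩
      rw [polT_eval]
      have h1 := surv_small d c (((initSt B.oracle s).mapMem B.val).mem 0 0) hgen hcard hD
      have h2 : ENNReal.ofReal (1 / 3) = 1 / 3 := by
        rw [ENNReal.ofReal_div_of_pos (by norm_num)]
        simp
      exact (ENNReal.ofReal_le_ofReal h1).trans h2.le

end Pool.Agent.MPa0c355.Wk
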